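import Pool.Agent.H369R3.UT.Defs

set_option autoImplicit false

open Set Filter Topology Metric MeasureTheory

namespace Pool.Agent.H994R4.UT

open Pool.Agent.H369R3.UT

theorem kern_nonneg {n : ℕ} (r : ℝ) (w : Cn n) : 0 ≤ kern r w :=
  Real.smoothTransition.nonneg _

theorem kern_le_one {n : ℕ} (r : ℝ) (w : Cn n) : kern r w ≤ 1 :=
  Real.smoothTransition.le_one _

theorem kern_zero {n : ℕ} {r : ℝ} (hr : 0 < r) {w : Cn n} (hw : r ≤ ‖w‖) : kern r w = 0 := by
  apply Real.smoothTransition.zero_of_nonpos
  have h1 : r ^ 2 ≤ ‖w‖ ^ 2 := by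
    have := norm_nonneg w
    nlinarith
  have h2 : 1 ≤ ‖w‖ ^ 2 / r ^ 2 := (one_le_div (by positivity)).2 h1
  linarith

theorem kern_cont {n : ℕ} (r : ℝ) : Continuous (kern (n := n) r) := by
  unfold kern
  exact Real.smoothTransition.continuous.comp (by fun_prop)

theorem kern_supp {n : ℕ} {r : ℝ} (hr : 0 < r) : HasCompactSupport (kern (n := n) r) := by
  apply HasCompactSupport.intro (isCompact_closedBall (0 : Cn n) r)
  intro x hx
  apply kern_zero hr
  rw [mem_closedBall, dist_zero_right, not_le] at hx
  exact hx.le

theorem taskD3 : TaskD3 := by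
  intro n μ _ v hv z r c C hr hb
  have hint : Integrable (kern (n := n) r) μ := (kern_cont r).integrable_of_hasCompactSupport (kern_supp hr)
  have hpos : 0 < ∫ w, kern (n := n) r w ∂μ := by
    apply (kern_cont r).integral_pos_of_hasCompactSupport_nonneg_nonzero (kern_supp hr)
      (fun w => kern_nonneg r w) (x := 0)
    have : kern (n := n) r 0 = 1 := by
      unfold kern
      rw [norm_zero]
      have : (1 : ℝ) - 0 ^ 2 / r ^ 2 = 1 := by simp
      rw [this]
      exact Real.smoothTransition.one
    rw [this]
    exact one_ne_zero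
  have hv' : Integrable (fun w => v (z + w)) μ := hv.comp_add_left z
  have hprod : Integrable (fun w => kern r w * v (z + w)) μ := by
    apply hv'.bdd_mul (c := 1) (kern_cont r).aestronglyMeasurable
    filter_upwards with w
    rw [Real.norm_eq_abs, abs_of_nonneg (kern_nonneg r w)]
    exact kern_le_one r w
  have hlow : ∀ w, c * kern (n := n) r w ≤ kern r w * v (z + w) := by
    intro w
    rcases lt_or_ge ‖w‖ r with h | h
    · have hm : z + w ∈ closedBall z r := by
        rw [mem_closedBall, dist_eq_norm]
        simpa using h.le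
      have := (hb _ hm).1
      nlinarith [kern_nonneg (n := n) r w]
    · rw [kern_zero hr h]
      simp
  have hup : ∀ w, kern (n := n) r w * v (z + w) ≤ C * kern r w := by
    intro w
    rcases lt_or_ge ‖w‖ r with h | h
    · have hm : z + w ∈ closedBall z r := by
        rw [mem_closedBall, dist_eq_norm]
        simpa using h.le
      have := (hb _ hm).2
      nlinarith [kern_nonneg (n := n) r w]
    · rw [kern_zero hr h]
      simp
  have h1 : c * ∫ w, kern (n := n) r w ∂μ ≤ ∫ w, kern r w * v (z + w) ∂μ := by
    rw [← integral_const_mul]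
    exact integral_mono (hint.const_mul c) hprod hlow
  have h2 : ∫ w, kern (n := n) r w * v (z + w) ∂μ ≤ C * ∫ w, kern (n := n) r w ∂μ := by
    rw [← integral_const_mul]
    exact integral_mono hprod (hint.const_mul C) hup
  unfold moll
  constructor
  · rw [← div_eq_inv_mul, le_div_iff₀ hpos]
    exact h1
  · rw [← div_eq_inv_mul, div_le_iff₀ hpos]
    exact h2

end Pool.Agent.H994R4.UT
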