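import Mathlib
import Pool.Agent.H994R3.LeafwiseDefs

set_option autoImplicit false

open MeasureTheory TopologicalSpace Set Function
open scoped Manifold ContDiff Topology
open Pool.Agent.H994R3.Leafwise (Form closedConvexCone wedge)

namespace Pool.Agent.H994R4.Torus

/-! Differential forms and currents on a complex torus `M = ℂ² ⧸ Γ`. The tangent spaces of `M` are
identified with `ℂ²`, and a differential form on `M` with its pull back to `ℂ²`, a `Γ`-periodic
form. -/

variable (Γ : AddSubgroup (ℂ × ℂ))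

/-- The space of smooth `p`-forms on the torus `M = ℂ² ⧸ Γ`: the smooth `Γ`-periodic maps from `ℂ²`
to the space `Form (ℂ × ℂ) p` of alternating (real) `p`-forms on `ℂ²`. -/
def formSpace (p : ℕ) : Submodule ℝ (ℂ × ℂ → Form (ℂ × ℂ) p) where
  carrier := {α | ContDiff ℝ ∞ α ∧ ∀ γ ∈ Γ, ∀ x, α (x + γ) = α x}
  add_mem' := by
    rintro a b ⟨ha, ha'⟩ ⟨hb, hb'⟩
    exact ⟨ha.add hb, fun γ hγ x => by simp [ha' γ hγ x, hb' γ hγ x]⟩
  zero_mem' := ⟨contDiff_const, fun γ _ x => rfl⟩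
  smul_mem' := by
    rintro r a ⟨ha, ha'⟩
    exact ⟨contDiff_const.smul ha, fun γ hγ x => by simp [ha' γ hγ x]⟩

/-- The type of smooth `p`-forms on the torus `M = ℂ² ⧸ Γ`. -/
def PForm (p : ℕ) : Type := formSpace Γ p

noncomputable instance (p : ℕ) : AddCommGroup (PForm Γ p) := inferInstanceAs (AddCommGroup (formSpace Γ p))

noncomputable instance (p : ℕ) : Module ℝ (PForm Γ p) := inferInstanceAs (Module ℝ (formSpace Γ p))

instance (p : ℕ) : CoeFun (PForm Γ p) (fun _ => ℂ × ℂ → Form (ℂ × ℂ) p) := ⟨Subtype.val⟩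

/-- The map `α ↦ D^k α` from `p`-forms to continuous maps. -/
noncomputable def jet (p k : ℕ) (α : PForm Γ p) :
    C(ℂ × ℂ, (ℂ × ℂ) [×k]→L[ℝ] (Form (ℂ × ℂ) p)) :=
  ⟨iteratedFDeriv ℝ k α, α.2.1.continuous_iteratedFDeriv (by exact_mod_cast le_top)⟩

/-- The `C^∞` topology on the space of smooth `p`-forms on the torus: uniform convergence (on
compact sets of `ℂ²`, hence on `M`) of all derivatives. -/
noncomputable instance (p : ℕ) : TopologicalSpace (PForm Γ p) :=
  ⨅ k : ℕ, TopologicalSpace.induced (jet Γ p k) inferInstance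

/-- `p`-currents on the torus: continuous linear functionals on smooth `p`-forms, with the weak
topology. -/
abbrev TCurrent (p : ℕ) := WeakDual ℝ (PForm Γ p)

variable {Γ}

/-- The value `c(α)`. -/
noncomputable abbrev value {p : ℕ} (c : TCurrent Γ p) (α : PForm Γ p) : ℝ := c α

/-- A current is closed (a cycle) if `c(dβ) = 0` for every smooth form `β`. -/
def IsCycle {p : ℕ} (c : TCurrent Γ (p + 1)) : Prop :=
  ∀ (β : PForm Γ p) (γ : PForm Γ (p + 1)), (∀ x, γ x = extDeriv β x) → value c γ = 0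

/-- The cone `C_x ⊂ Λ² T_x M` generated by the complex lines `v ∧ i v`. -/
def lineCone : Set (Form (ℂ × ℂ) 2 →L[ℝ] ℝ) :=
  closedConvexCone {w | ∃ v : ℂ × ℂ, w = wedge v (Complex.I • v)}

variable (Γ) in
/-- The closed convex cone, in the space of `2`-currents on the torus, generated by the Dirac
currents `α ↦ α_x(w)` with `x ∈ M`, `w ∈ C_x`. -/
def positiveCurrents : Set (TCurrent Γ 2) :=
  closedConvexCone {c | ∃ x : ℂ × ℂ, ∃ w ∈ lineCone, ∀ α : PForm Γ 2, value c α = w (α x)}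

variable (Γ) in
/-- The smooth `p`-forms on `M` with compact support in the open set `U` (`M` is compact, so a
subset of `U` is compact as soon as it is closed in `M`). -/
def PFormOn (p : ℕ) (U : Opens ((ℂ × ℂ) ⧸ Γ)) : Submodule ℝ (PForm Γ p) where
  carrier := {α | tsupport (α : ℂ × ℂ → Form (ℂ × ℂ) p) ⊆ QuotientAddGroup.mk ⁻¹' (U : Set ((ℂ × ℂ) ⧸ Γ))}
  add_mem' := by
    intro a b ha hb
    exact Subset.trans (tsupport_add (a : ℂ × ℂ → Form (ℂ × ℂ) p) b) (union_subset ha hb)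
  zero_mem' := by
    change tsupport (fun _ : ℂ × ℂ => (0 : Form (ℂ × ℂ) p)) ⊆ _
    simp [tsupport]
  smul_mem' := by
    intro r a ha
    exact Subset.trans (closure_mono (support_const_smul_subset r
      (a : ℂ × ℂ → Form (ℂ × ℂ) p))) ha

/-- `u : S → U` is a proper holomorphic map from the Riemann surface `S` to the open subset `U` of
`M = ℂ² ⧸ Γ`: in each chart of `S` it has, near each point, a holomorphic lift to `ℂ²`. -/
structure IsCurve (U : Opens ((ℂ × ℂ) ⧸ Γ)) (S : Type) [TopologicalSpace S] [ChartedSpace ℂ S]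
    (u : S → (ℂ × ℂ) ⧸ Γ) : Prop where
  mem : ∀ s, u s ∈ U
  continuous : Continuous u
  proper : ∀ K : Set ((ℂ × ℂ) ⧸ Γ), K ⊆ U → IsCompact K → IsCompact (u ⁻¹' K)
  holo : ∀ φ ∈ atlas ℂ S, ∀ z ∈ φ.target, ∃ f : ℂ → ℂ × ℂ, AnalyticAt ℂ f z ∧
    ∀ᶠ w in 𝓝 z, (f w : (ℂ × ℂ) ⧸ Γ) = u (φ.symm w)

/-- The functional `c` on the `2`-forms with compact support in `U` is `α ↦ ∫_S u^*α`, computed
with a partition of unity `(ρ i)` on `S`, the support of `ρ i` being contained in the domain of a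
chart `φ i` and mapped by it into an open set `O i` of `ℂ` where `u` has a holomorphic lift
`f i : O i → ℂ²`. -/
def IsIntegration {U : Opens ((ℂ × ℂ) ⧸ Γ)} {S : Type} [TopologicalSpace S] [ChartedSpace ℂ S]
    (u : S → (ℂ × ℂ) ⧸ Γ) (c : PFormOn Γ 2 U →ₗ[ℝ] ℝ) : Prop :=
  ∃ (ι : Type) (ρ : PartitionOfUnity ι S univ) (φ : ι → OpenPartialHomeomorph S ℂ)
    (O : ι → Set ℂ) (f : ι → ℂ → ℂ × ℂ),
    (∀ i, φ i ∈ atlas ℂ S ∧ IsOpen (O i) ∧ O i ⊆ (φ i).target ∧
      tsupport (ρ i) ⊆ (φ i).source ∩ φ i ⁻¹' (O i) ∧ DifferentiableOn ℂ (f i) (O i) ∧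
      ∀ z ∈ O i, (f i z : (ℂ × ℂ) ⧸ Γ) = u ((φ i).symm z)) ∧
    ∀ α : PFormOn Γ 2 U, c α = ∑ᶠ i, ∫ z in O i, ρ i ((φ i).symm z) *
      (α : PForm Γ 2) (f i z) ![fderiv ℝ (f i) z 1, fderiv ℝ (f i) z Complex.I]

variable (Γ) in
/-- The set of all functionals `α ↦ ∫_S u^*α`, for `S` a connected Riemann surface and `u : S → U`
a proper holomorphic map. It contains the integration current `[V]` of every irreducible closed
analytic curve `V` of `U`: take for `u` the normalization of `V`. -/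
def curves (U : Opens ((ℂ × ℂ) ⧸ Γ)) : Set (PFormOn Γ 2 U →ₗ[ℝ] ℝ) :=
  {c | ∃ (S : Type) (_ : TopologicalSpace S) (_ : T2Space S) (_ : ConnectedSpace S)
    (_ : ChartedSpace ℂ S) (_ : IsManifold 𝓘(ℂ) 1 S) (u : S → (ℂ × ℂ) ⧸ Γ),
    IsCurve U S u ∧ IsIntegration u c}

/-- On `U`, the current `c` is an average of complex curves: there is a measure `ν` on the set of
curves of `U` (for some σ-algebra, for instance the Borel σ-algebra of any topology) with
`c(α) = ∫ c'(α) dν(c')` for all smooth `2`-forms `α` with compact support in `U`. -/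
def IsAverage (U : Opens ((ℂ × ℂ) ⧸ Γ)) (c : TCurrent Γ 2) : Prop :=
  ∃ (_ : MeasurableSpace (curves Γ U)) (ν : Measure (curves Γ U)),
    ∀ α : PFormOn Γ 2 U, Integrable (fun c' : curves Γ U => c'.1 α) ν ∧
      value c α.1 = ∫ c' : curves Γ U, c'.1 α ∂ν

end Pool.Agent.H994R4.Torus
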