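import Mathlib
import Pool.Agent.H994R4.TorusDefs
import Pool.Agent.H994R3.LeafwiseTropical

set_option autoImplicit false

open MeasureTheory TopologicalSpace Set Function
open scoped Manifold ContDiff Topology
open Pool.Agent.H994R3.Leafwise (Form closedConvexCone wedge cplx dirR cplx_apply sum_dirR
  mem_closedConvexCone_of_nonneg)

namespace Pool.Agent.H994R4.Torus

/-! ### integration by parts on cubes -/

theorem ftc_unit (f : ℝ → ℝ) (hf : ContDiff ℝ ∞ f) :
    ∫ t in Icc (0 : ℝ) 1, deriv f t = f 1 - f 0 := by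
  rw [integral_Icc_eq_integral_Ioc, ← intervalIntegral.integral_of_le zero_le_one]
  apply intervalIntegral.integral_deriv_eq_sub
  · intro x _
    exact hf.differentiable (by simp) x
  · exact (hf.continuous_deriv (by simp)).intervalIntegrable _ _

section

variable {Y : Type*} [NormedAddCommGroup Y] [NormedSpace ℝ Y] [MeasurableSpace Y] [BorelSpace Y]
  [SecondCountableTopology Y] (ν : Measure Y) [IsFiniteMeasureOnCompacts ν] [SFinite ν]

theorem int_fst {K : Set Y} (hK : IsCompact K) (G : ℝ × Y → ℝ) (hG : ContDiff ℝ ∞ G) :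
    ∫ x in Icc (0 : ℝ) 1 ×ˢ K, fderiv ℝ G x (1, 0) ∂(volume.prod ν) =
      ∫ s in K, (G (1, s) - G (0, s)) ∂ν := by
  have hcont : Continuous (fun x => fderiv ℝ G x ((1, 0) : ℝ × Y)) :=
    (hG.continuous_fderiv (by simp)).clm_apply continuous_const
  have hint : IntegrableOn (fun x => fderiv ℝ G x ((1, 0) : ℝ × Y)) (Icc (0 : ℝ) 1 ×ˢ K)
      (volume.prod ν) := hcont.continuousOn.integrableOn_compact (isCompact_Icc.prod hK)
  have e : (volume.prod ν).restrict (Icc (0 : ℝ) 1 ×ˢ K) =
      ((volume : Measure ℝ).restrict (Icc 0 1)).prod (ν.restrict K) :=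
    (Measure.prod_restrict _ _).symm
  rw [IntegrableOn, e] at hint
  rw [e, integral_prod_symm _ hint]
  congr 1
  ext s
  have hGs : ContDiff ℝ ∞ (fun x : ℝ => G (x, s)) := hG.comp (by fun_prop)
  rw [← ftc_unit _ hGs]
  apply integral_congr_ae
  filter_upwards with x
  have hd : HasFDerivAt G (fderiv ℝ G (x, s)) (x, s) :=
    (hG.differentiable (by simp) _).hasFDerivAt
  have hx : HasDerivAt (fun x : ℝ => ((x, s) : ℝ × Y)) (1, 0) x :=
    (hasDerivAt_id x).prodMk (hasDerivAt_const x s)
  exact (hd.comp_hasDerivAt x hx).deriv.symm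

theorem int_snd {K : Set Y} (hK : IsCompact K) (G : Y × ℝ → ℝ) (hG : ContDiff ℝ ∞ G) :
    ∫ x in K ×ˢ Icc (0 : ℝ) 1, fderiv ℝ G x (0, 1) ∂(ν.prod volume) =
      ∫ s in K, (G (s, 1) - G (s, 0)) ∂ν := by
  have hcont : Continuous (fun x => fderiv ℝ G x ((0, 1) : Y × ℝ)) :=
    (hG.continuous_fderiv (by simp)).clm_apply continuous_const
  have hint : IntegrableOn (fun x => fderiv ℝ G x ((0, 1) : Y × ℝ)) (K ×ˢ Icc (0 : ℝ) 1)
      (ν.prod volume) := hcont.continuousOn.integrableOn_compact (hK.prod isCompact_Icc)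
  have e : (ν.prod volume).restrict (K ×ˢ Icc (0 : ℝ) 1) =
      (ν.restrict K).prod ((volume : Measure ℝ).restrict (Icc 0 1)) :=
    (Measure.prod_restrict _ _).symm
  rw [IntegrableOn, e] at hint
  rw [e, integral_prod _ hint]
  congr 1
  ext s
  have hGs : ContDiff ℝ ∞ (fun x : ℝ => G (s, x)) := hG.comp (by fun_prop)
  rw [← ftc_unit _ hGs]
  apply integral_congr_ae
  filter_upwards with x
  have hd : HasFDerivAt G (fderiv ℝ G (s, x)) (s, x) :=
    (hG.differentiable (by simp) _).hasFDerivAt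
  have hx : HasDerivAt (fun x : ℝ => ((s, x) : Y × ℝ)) (0, 1) x :=
    (hasDerivAt_const x s).prodMk (hasDerivAt_id x)
  exact (hd.comp_hasDerivAt x hx).deriv.symm

end

/-- the unit square -/
def Q2 : Set (ℝ × ℝ) := Icc (0 : ℝ) 1 ×ˢ Icc (0 : ℝ) 1

/-- the unit cube -/
def Q3 : Set (ℝ × (ℝ × ℝ)) := Icc (0 : ℝ) 1 ×ˢ Q2

theorem isCompact_Q2 : IsCompact Q2 := isCompact_Icc.prod isCompact_Icc

theorem isCompact_Q3 : IsCompact Q3 := isCompact_Icc.prod isCompact_Q2

theorem int_periodic2 (P : ℝ × ℝ → ℝ) (hP : ContDiff ℝ ∞ P)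
    (h1 : ∀ s, P (1, s) = P (0, s)) (h2 : ∀ s, P (s, 1) = P (s, 0)) (d : ℝ × ℝ) :
    ∫ s in Q2, fderiv ℝ P s d = 0 := by
  have hc : ∀ v : ℝ × ℝ, Continuous (fun x => fderiv ℝ P x v) := fun v =>
    (hP.continuous_fderiv (by simp)).clm_apply continuous_const
  have hint : ∀ v : ℝ × ℝ, IntegrableOn (fun x => fderiv ℝ P x v) Q2 := fun v =>
    (hc v).continuousOn.integrableOn_compact isCompact_Q2
  have e : ∀ x, fderiv ℝ P x d = d.1 * fderiv ℝ P x (1, 0) + d.2 * fderiv ℝ P x (0, 1) := by
    intro x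
    have : d = d.1 • ((1, 0) : ℝ × ℝ) + d.2 • ((0, 1) : ℝ × ℝ) := by
      ext <;> simp
    conv_lhs => rw [this]
    rw [map_add, map_smul, map_smul, smul_eq_mul, smul_eq_mul]
  simp_rw [e]
  rw [integral_add ((hint _).const_mul _) ((hint _).const_mul _), integral_const_mul,
    integral_const_mul]
  have i1 : ∫ x in Q2, fderiv ℝ P x (1, 0) = 0 := by
    have := int_fst (volume : Measure ℝ) isCompact_Icc P hP (K := Icc (0 : ℝ) 1)
    rw [Q2, Measure.volume_eq_prod]
    rw [this]
    simp [h1]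
  have i2 : ∫ x in Q2, fderiv ℝ P x (0, 1) = 0 := by
    have := int_snd (volume : Measure ℝ) isCompact_Icc P hP (K := Icc (0 : ℝ) 1)
    rw [Q2, Measure.volume_eq_prod]
    rw [this]
    simp [h2]
  rw [i1, i2]
  simp

theorem int_periodic3 (G : ℝ × (ℝ × ℝ) → ℝ) (hG : ContDiff ℝ ∞ G)
    (h1 : ∀ r s, G (r, (1, s)) = G (r, (0, s))) (h2 : ∀ r s, G (r, (s, 1)) = G (r, (s, 0)))
    (d : ℝ × ℝ) :
    ∫ x in Q3, fderiv ℝ G x (0, d) = 0 := by
  have hcont : Continuous (fun x => fderiv ℝ G x ((0, d) : ℝ × (ℝ × ℝ))) :=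
    (hG.continuous_fderiv (by simp)).clm_apply continuous_const
  have hint : IntegrableOn (fun x => fderiv ℝ G x ((0, d) : ℝ × (ℝ × ℝ))) Q3
      ((volume : Measure ℝ).prod (volume : Measure (ℝ × ℝ))) :=
    hcont.continuousOn.integrableOn_compact isCompact_Q3
  rw [Q3, Measure.volume_eq_prod, setIntegral_prod _ hint]
  apply integral_eq_zero_of_ae
  filter_upwards with r
  have hGs : ContDiff ℝ ∞ (fun s : ℝ × ℝ => G (r, s)) := hG.comp (by fun_prop)
  refine Eq.trans ?_ (int_periodic2 _ hGs (h1 r) (h2 r) d)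
  apply integral_congr_ae
  filter_upwards with s
  have hd : HasFDerivAt G (fderiv ℝ G (r, s)) (r, s) :=
    (hG.differentiable (by simp) _).hasFDerivAt
  have hx : HasFDerivAt (fun s : ℝ × ℝ => ((r, s) : ℝ × (ℝ × ℝ)))
      (ContinuousLinearMap.inr ℝ ℝ (ℝ × ℝ)) s := hasFDerivAt_prodMk_right r s
  have h2 : fderiv ℝ (fun s : ℝ × ℝ => G (r, s)) s =
      (fderiv ℝ G (r, s)) ∘L (ContinuousLinearMap.inr ℝ ℝ (ℝ × ℝ)) := (hd.comp s hx).fderiv
  rw [h2]
  simp

/-! ### the lattice -/

/-- the lattice `{(x + ip, y + iq) : 3 ∣ x + y}` -/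
def lat : AddSubgroup (ℂ × ℂ) where
  carrier := {w | ∃ x y p q : ℤ, (3 : ℤ) ∣ x + y ∧
    w = ((x : ℂ) + p * Complex.I, (y : ℂ) + q * Complex.I)}
  add_mem' := by
    rintro _ _ ⟨x, y, p, q, h, rfl⟩ ⟨x', y', p', q', h', rfl⟩
    refine ⟨x + x', y + y', p + p', q + q', ?_, ?_⟩
    · have := dvd_add h h'
      have e : x + x' + (y + y') = x + y + (x' + y') := by ring
      rwa [e]
    · apply Prod.ext
      · simp only [Prod.fst_add]
        push_cast
        ring
      · simp only [Prod.snd_add]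
        push_cast
        ring
  zero_mem' := ⟨0, 0, 0, 0, by simp, by ext <;> simp⟩
  neg_mem' := by
    rintro _ ⟨x, y, p, q, h, rfl⟩
    refine ⟨-x, -y, -p, -q, ?_, ?_⟩
    · have := (dvd_neg (a := (3 : ℤ))).2 h
      have e : -x + -y = -(x + y) := by ring
      rwa [e]
    · apply Prod.ext
      · simp only [Prod.fst_neg]
        push_cast
        ring
      · simp only [Prod.snd_neg]
        push_cast
        ring

theorem mem_lat {w : ℂ × ℂ} : w ∈ lat ↔ ∃ x y p q : ℤ, (3 : ℤ) ∣ x + y ∧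
    w = ((x : ℂ) + p * Complex.I, (y : ℂ) + q * Complex.I) := Iff.rfl

/-! ### the current -/

/-- `v_k` -/
noncomputable def V (k : Fin 3) : ℂ × ℂ := cplx (dirR k)

theorem sum_V : ∑ k, V k = 0 := by
  simp only [V]
  rw [← map_sum, sum_dirR, map_zero]

/-- the parametrisation -/
noncomputable def ps (k : Fin 3) : (ℝ × (ℝ × ℝ)) →L[ℝ] ℂ × ℂ :=
  (ContinuousLinearMap.fst ℝ ℝ (ℝ × ℝ)).smulRight (V k) +
      Complex.I • (cplx ∘L (ContinuousLinearMap.snd ℝ ℝ (ℝ × ℝ)))

theorem ps_apply (k : Fin 3) (x : ℝ × (ℝ × ℝ)) :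
    ps k x = x.1 • V k + Complex.I • cplx x.2 := by
  simp [ps]

/-- one term of the current, on continuous maps -/
noncomputable def term (k : Fin 3) (α : ℂ × ℂ → Form (ℂ × ℂ) 2) : ℝ :=
  ∫ x in Q3, α (ps k x) ![V k, Complex.I • V k]

theorem continuous_integral_compact {K : Type*} [TopologicalSpace K] [CompactSpace K]
    [MeasurableSpace K] [OpensMeasurableSpace K] (μ : Measure K) [IsFiniteMeasure μ] :
    Continuous (fun f : C(K, ℝ) => ∫ x, f x ∂μ) := by
  have hint : ∀ f : C(K, ℝ), Integrable f μ := fun f =>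
    f.continuous.integrable_of_hasCompactSupport (HasCompactSupport.of_compactSpace f)
  apply LipschitzWith.continuous (K := (μ.real univ).toNNReal)
  apply LipschitzWith.of_dist_le_mul
  intro f g
  rw [dist_eq_norm, ← integral_sub (hint f) (hint g)]
  refine (norm_integral_le_of_norm_le_const (C := dist f g) ?_).trans ?_
  · filter_upwards with x
    rw [← dist_eq_norm]
    exact ContinuousMap.dist_apply_le_dist x
  · rw [Real.coe_toNNReal _ measureReal_nonneg, mul_comm]

theorem continuous_term (k : Fin 3) :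
    Continuous (fun α : PForm lat 2 => term k α) := by
  have hK : CompactSpace Q3 := isCompact_iff_compactSpace.1 isCompact_Q3
  set μ : Measure Q3 := (volume : Measure (ℝ × (ℝ × ℝ))).comap Subtype.val with hμ
  have hms : MeasurableSet Q3 := isCompact_Q3.measurableSet
  have hfin : IsFiniteMeasure μ := by
    refine ⟨?_⟩
    rw [hμ, comap_subtype_coe_apply hms]
    simp only [image_univ, Subtype.range_coe_subtype, ofPred_mem_eq]
    exact isCompact_Q3.measure_lt_top
  set A : ((ℂ × ℂ) [×0]→L[ℝ] (Form (ℂ × ℂ) 2)) → ℝ :=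
    fun B => B 0 ![V k, Complex.I • V k] with hA
  have hAc : Continuous A := by
    have h1 : Continuous (fun B : (ℂ × ℂ) [×0]→L[ℝ] (Form (ℂ × ℂ) 2) => B 0) :=
      (ContinuousMultilinearMap.apply ℝ (fun _ : Fin 0 => ℂ × ℂ) (Form (ℂ × ℂ) 2) 0).continuous
    have h2 : Continuous (fun w : Form (ℂ × ℂ) 2 => w ![V k, Complex.I • V k]) :=
      (ContinuousAlternatingMap.apply ℝ (ℂ × ℂ) ℝ ![V k, Complex.I • V k]).continuous
    exact h2.comp h1
  set P : C(Q3, ℂ × ℂ) := ⟨fun x => ps k x.1, (ps k).continuous.comp continuous_subtype_val⟩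
  have h1 : Continuous (fun F : C(ℂ × ℂ, (ℂ × ℂ) [×0]→L[ℝ] (Form (ℂ × ℂ) 2)) =>
      ((ContinuousMap.mk A hAc).comp F).comp P) :=
    (ContinuousMap.continuous_precomp P).comp (ContinuousMap.continuous_postcomp _)
  have h2 := (continuous_integral_compact μ).comp h1
  have h3 : Continuous (fun α : PForm lat 2 => jet lat 2 0 α) := by
    apply continuous_iInf_dom (i := 0)
    exact continuous_induced_dom
  have h4 := h2.comp h3
  convert h4 using 1
  funext α
  simp only [term, comp_apply]
  rw [← integral_subtype_comap hms]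
  apply integral_congr_ae
  filter_upwards with x
  simp only [ContinuousMap.comp_apply, ContinuousMap.coe_mk, P, hA, jet]
  rw [iteratedFDeriv_zero_apply]

theorem term_integrable (k : Fin 3) (α : PForm lat 2) :
    IntegrableOn (fun x => α (ps k x) ![V k, Complex.I • V k]) Q3 := by
  have h2 : Continuous (fun w : Form (ℂ × ℂ) 2 => w ![V k, Complex.I • V k]) :=
      (ContinuousAlternatingMap.apply ℝ (ℂ × ℂ) ℝ ![V k, Complex.I • V k]).continuous
  exact ((h2.comp α.2.1.continuous).comp (ps k).continuous).continuousOn.integrableOn_compact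
    isCompact_Q3

/-- the honeycomb current -/
noncomputable def honey : TCurrent lat 2 :=
  { toFun := fun α => ∑ k, term k α
    map_add' := by
      intro α β
      rw [← Finset.sum_add_distrib]
      apply Finset.sum_congr rfl
      intro k _
      simp only [term]
      rw [← integral_add (term_integrable k α) (term_integrable k β)]
      rfl
    map_smul' := by
      intro r α
      rw [RingHom.id_apply, smul_eq_mul, Finset.mul_sum]
      apply Finset.sum_congr rfl
      intro k _
      simp only [term]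
      rw [← integral_const_mul]
      rfl
    cont := continuous_finsetSum _ (fun k _ => continuous_term k) : PForm lat 2 →L[ℝ] ℝ }

theorem honey_apply (α : PForm lat 2) : honey α = ∑ k, term k α := rfl

theorem honey_mem : honey ∈ positiveCurrents lat := by
  have hd : ∀ (x v : ℂ × ℂ), ∃ c : TCurrent lat 2, ∀ α : PForm lat 2,
      c α = α x ![v, Complex.I • v] := by
    intro x v
    have h3 : Continuous (fun α : PForm lat 2 => jet lat 2 0 α) := by
      apply continuous_iInf_dom (i := 0)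
      exact continuous_induced_dom
    have h1 : Continuous (fun B : (ℂ × ℂ) [×0]→L[ℝ] (Form (ℂ × ℂ) 2) => B 0) :=
      (ContinuousMultilinearMap.apply ℝ (fun _ : Fin 0 => ℂ × ℂ) (Form (ℂ × ℂ) 2) 0).continuous
    have h2 : Continuous (fun w : Form (ℂ × ℂ) 2 => w ![v, Complex.I • v]) :=
      (ContinuousAlternatingMap.apply ℝ (ℂ × ℂ) ℝ ![v, Complex.I • v]).continuous
    have h4 : Continuous (fun α : PForm lat 2 => (α x) ![v, Complex.I • v]) := by
      have := (h2.comp h1).comp ((continuous_eval_const (F := C(ℂ × ℂ, (ℂ × ℂ) [×0]→L[ℝ] (Form (ℂ × ℂ) 2))) x).comp h3)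
      convert this using 1
      funext α
      simp only [comp_apply, jet, ContinuousMap.coe_mk]
      rw [iteratedFDeriv_zero_apply]
    exact ⟨({ toFun := fun α => (α x) ![v, Complex.I • v]
              map_add' := fun α β => rfl
              map_smul' := fun r α => rfl
              cont := h4 } : PForm lat 2 →L[ℝ] ℝ), fun α => rfl⟩
  choose D hD using hd
  have hDm : ∀ x v, D x v ∈ {c : TCurrent lat 2 | ∃ x : ℂ × ℂ, ∃ w ∈ lineCone,
      ∀ α : PForm lat 2, value c α = w (α x)} := by
    intro x v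
    refine ⟨x, wedge v (Complex.I • v), ?_, fun α => ?_⟩
    · rintro K ⟨_, _, _, hK⟩
      exact hK ⟨v, rfl⟩
    · rw [value, hD]
      rfl
  apply mem_closedConvexCone_of_nonneg
  · exact ⟨_, hDm 0 0⟩
  · intro α hα
    rw [honey_apply]
    apply Finset.sum_nonneg
    intro k _
    apply integral_nonneg
    intro x
    have := hα _ (hDm (ps k x) (V k))
    rwa [hD] at this

theorem ps_zero (k : Fin 3) (s : ℝ × ℝ) : ps k (0, s) = Complex.I • cplx s := by
  rw [ps_apply]
  simp

theorem ps_one (k : Fin 3) (s : ℝ × ℝ) : ps k (1, s) = V k + Complex.I • cplx s := by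
  rw [ps_apply]
  simp

theorem V_sub_mem (k : Fin 3) : V k - V 2 ∈ lat := by
  fin_cases k
  · refine ⟨-2, -1, 0, 0, by norm_num, ?_⟩
    simp only [V, dirR, cplx_apply]
    apply Prod.ext <;> simp <;> norm_num
  · refine ⟨-1, -2, 0, 0, by norm_num, ?_⟩
    simp only [V, dirR, cplx_apply]
    apply Prod.ext <;> simp <;> norm_num
  · simpa using lat.zero_mem

theorem i_mem (a b : ℤ) : Complex.I • cplx ((a : ℝ), (b : ℝ)) ∈ lat := by
  refine ⟨0, 0, a, b, by norm_num, ?_⟩
  rw [cplx_apply]
  apply Prod.ext <;> simp [mul_comm]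

theorem honey_isCycle : IsCycle (p := 1) honey := by
  intro β γ hγ
  change honey γ = 0
  rw [honey_apply]
  -- the coefficient functions
  set g : ℂ × ℂ → ℂ × ℂ → ℝ := fun a y => β y ![a] with hg
  have hgs : ∀ a, ContDiff ℝ ∞ (g a) := by
    intro a
    have h := (ContinuousAlternatingMap.apply ℝ (ℂ × ℂ) ℝ ![a]).contDiff (n := ∞)
    exact h.comp β.2.1
  have hgp : ∀ a, ∀ w ∈ lat, ∀ y, g a (y + w) = g a y := by
    intro a w hw y
    simp only [hg]
    rw [β.2.2 w hw y]
  have hβd : ∀ y, DifferentiableAt ℝ β y := fun y => β.2.1.differentiable (by simp) y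
  have hd : ∀ y a b, γ y ![a, b] = fderiv ℝ (g b) y a - fderiv ℝ (g a) y b := by
    intro y a b
    rw [hγ y]
    have r0 : (0 : Fin 2).removeNth ![a, b] = ![b] := by
      funext i
      fin_cases i
      rfl
    have r1 : (1 : Fin 2).removeNth ![a, b] = ![a] := by
      funext i
      fin_cases i
      rfl
    rw [extDeriv_apply (hβd y), Fin.sum_univ_two, r0, r1]
    simp [hg, sub_eq_add_neg]
  have hGs : ∀ a k, ContDiff ℝ ∞ (g a ∘ ps k) := fun a k => (hgs a).comp (ps k).contDiff
  have hder : ∀ a k x w, fderiv ℝ (g a ∘ ps k) x w = fderiv ℝ (g a) (ps k x) (ps k w) := by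
    intro a k x w
    rw [fderiv_comp x ((hgs a).differentiable (by simp) _) (ps k).differentiableAt]
    simp
  have hA : ∀ k, ps k (1, 0) = V k := by
    intro k
    rw [ps_apply]
    simp
  have hB : ∀ k, ps k (0, dirR k) = Complex.I • V k := by
    intro k
    rw [ps_apply]
    simp [V]
  have hterm : ∀ k : Fin 3, term k γ =
      ∫ s in Q2, (g (Complex.I • V k) (V 2 + Complex.I • cplx s) -
        g (Complex.I • V k) (Complex.I • cplx s)) := by
    intro k
    have e : ∀ x, γ (ps k x) ![V k, Complex.I • V k] =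
        fderiv ℝ (g (Complex.I • V k) ∘ ps k) x (1, 0) -
        fderiv ℝ (g (V k) ∘ ps k) x (0, dirR k) := by
      intro x
      rw [hd, hder, hder, hA, hB]
    simp only [term]
    simp_rw [e]
    have c1 : Continuous (fun x => fderiv ℝ (g (Complex.I • V k) ∘ ps k) x
        ((1, 0) : ℝ × (ℝ × ℝ))) :=
      ((hGs _ k).continuous_fderiv (by simp)).clm_apply continuous_const
    have c2 : Continuous (fun x => fderiv ℝ (g (V k) ∘ ps k) x
        ((0, dirR k) : ℝ × (ℝ × ℝ))) :=
      ((hGs _ k).continuous_fderiv (by simp)).clm_apply continuous_const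
    rw [integral_sub (c1.continuousOn.integrableOn_compact isCompact_Q3)
      (c2.continuousOn.integrableOn_compact isCompact_Q3)]
    rw [int_periodic3 _ (hGs _ k), sub_zero]
    · have h1 := int_fst (volume : Measure (ℝ × ℝ)) isCompact_Q2 _ (hGs (Complex.I • V k) k)
      rw [Q3, Measure.volume_eq_prod ℝ (ℝ × ℝ), h1]
      apply integral_congr_ae
      filter_upwards with s
      simp only [comp_apply]
      rw [ps_zero, ps_one]
      congr 1
      have := hgp (Complex.I • V k) _ (V_sub_mem k) (V 2 + Complex.I • cplx s)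
      rw [← this]
      congr 1
      abel
    · intro r s
      simp only [comp_apply]
      have := hgp (V k) _ (i_mem 1 0) (ps k (r, (0, s)))
      rw [← this]
      congr 1
      rw [ps_apply, ps_apply, add_assoc, ← smul_add, ← map_add]
      simp
    · intro r s
      simp only [comp_apply]
      have := hgp (V k) _ (i_mem 0 1) (ps k (r, (s, 0)))
      rw [← this]
      congr 1
      rw [ps_apply, ps_apply, add_assoc, ← smul_add, ← map_add]
      simp
  rw [Finset.sum_congr rfl (fun k _ => hterm k)]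
  have hlin : ∀ y, ∃ ℓ : (ℂ × ℂ) →ₗ[ℝ] ℝ, ∀ a, g a y = ℓ a := by
    intro y
    refine ⟨((ContinuousAlternatingMap.ofSubsingleton ℝ (ℂ × ℂ) ℝ (0 : Fin 1)).symm
      (β y)).toLinearMap, fun a => ?_⟩
    simp only [hg]
    have : (![a] : Fin 1 → ℂ × ℂ) = fun _ => a := by
      funext i
      fin_cases i
      rfl
    rw [this]
    rfl
  have hz : ∀ y, ∑ k : Fin 3, g (Complex.I • V k) y = 0 := by
    intro y
    obtain ⟨ℓ, hℓ⟩ := hlin y
    simp_rw [hℓ]
    rw [← map_sum, ← Finset.smul_sum, sum_V, smul_zero, map_zero]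
  rw [← integral_finsetSum]
  · apply integral_eq_zero_of_ae
    filter_upwards with s
    rw [Finset.sum_sub_distrib, hz, hz]
    simp
  · intro k _
    have hc1 : Continuous (fun s : ℝ × ℝ => g (Complex.I • V k) (V 2 + Complex.I • cplx s)) :=
      (hgs _).continuous.comp (by fun_prop)
    have hc2 : Continuous (fun s : ℝ × ℝ => g (Complex.I • V k) (Complex.I • cplx s)) :=
      (hgs _).continuous.comp (by fun_prop)
    exact (hc1.sub hc2).continuousOn.integrableOn_compact isCompact_Q2

end Pool.Agent.H994R4.Torus
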