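import Mathlib
import Pool.Agent.H994R4.TorusCurrent
import Pool.Agent.H994R3.LeafwiseMass

set_option autoImplicit false

open MeasureTheory TopologicalSpace Set Function
open scoped Manifold ContDiff Topology
open Pool.Agent.H994R3.Leafwise (Form closedConvexCone wedge form2 form2_apply)

namespace Pool.Agent.H994R4.Torus

/-- the torus -/
abbrev M := (ℂ × ℂ) ⧸ lat

/-- the projection -/
abbrev mk (x : ℂ × ℂ) : M := (x : (ℂ × ℂ) ⧸ lat)

theorem continuous_mk : Continuous mk := continuous_quotient_mk'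

theorem isOpenMap_mk : IsOpenMap mk := QuotientAddGroup.isOpenMap_coe

theorem surjective_mk : Surjective mk := QuotientAddGroup.mk_surjective

theorem mk_eq_iff {x y : ℂ × ℂ} : mk x = mk y ↔ y - x ∈ lat := by
  rw [mk, mk, QuotientAddGroup.eq]
  have : -x + y = y - x := by abel
  rw [this]

theorem lat_small {w : ℂ × ℂ} (hw : w ∈ lat) (h : ‖w‖ < 1) : w = 0 := by
  obtain ⟨x, y, p, q, _, rfl⟩ := hw
  have h1 : ‖((x : ℂ) + p * Complex.I)‖ < 1 := (norm_fst_le _).trans_lt h
  have h2 : ‖((y : ℂ) + q * Complex.I)‖ < 1 := (norm_snd_le _).trans_lt h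
  have key : ∀ a b : ℤ, ‖((a : ℂ) + b * Complex.I)‖ < 1 → a = 0 ∧ b = 0 := by
    intro a b hab
    have ha := (Complex.abs_re_le_norm _).trans_lt hab
    have hb := (Complex.abs_im_le_norm _).trans_lt hab
    simp at ha hb
    constructor
    · have : |a| < 1 := by exact_mod_cast ha
      exact Int.abs_lt_one_iff.1 this
    · have : |b| < 1 := by exact_mod_cast hb
      exact Int.abs_lt_one_iff.1 this
  obtain ⟨rfl, rfl⟩ := key x p h1
  obtain ⟨rfl, rfl⟩ := key y q h2
  simp

/-- every point is congruent to a point of `[0,3] × [0,1]`, up to imaginary parts in `[0,1]` -/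
theorem exists_rep (w : ℂ × ℂ) : ∃ γ ∈ lat, ‖w + γ‖ ≤ 4 := by
  set b : ℤ := ⌊w.2.re⌋
  set a : ℤ := ⌊(w.1.re + b) / 3⌋
  set p : ℤ := ⌊w.1.im⌋
  set q : ℤ := ⌊w.2.im⌋
  refine ⟨(((b - 3 * a : ℤ) : ℂ) + ((-p : ℤ) : ℂ) * Complex.I,
    ((-b : ℤ) : ℂ) + ((-q : ℤ) : ℂ) * Complex.I), ⟨_, _, _, _, ?_, rfl⟩, ?_⟩
  · exact ⟨-a, by ring⟩
  · have key : ∀ z : ℂ, |z.re| ≤ 3 → |z.im| ≤ 1 → ‖z‖ ≤ 4 := by
      intro z h1 h2
      have := Complex.norm_le_abs_re_add_abs_im z
      linarith
    rw [Prod.norm_def]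
    apply max_le
    · apply key
      · simp only [Prod.fst_add]
        simp
        have h1 := Int.floor_le ((w.1.re + b) / 3)
        have h2 := Int.lt_floor_add_one ((w.1.re + b) / 3)
        rw [abs_le]
        constructor <;> [skip; skip] <;> change _ ≤ _ <;> simp only [a] <;> linarith
      · simp only [Prod.fst_add]
        simp
        have h1 := Int.floor_le w.1.im
        have h2 := Int.lt_floor_add_one w.1.im
        rw [abs_le]
        constructor <;> simp only [p] <;> linarith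
    · apply key
      · simp only [Prod.snd_add]
        simp
        have h1 := Int.floor_le w.2.re
        have h2 := Int.lt_floor_add_one w.2.re
        rw [abs_le]
        constructor <;> simp only [b] <;> linarith
      · simp only [Prod.snd_add]
        simp
        have h1 := Int.floor_le w.2.im
        have h2 := Int.lt_floor_add_one w.2.im
        rw [abs_le]
        constructor <;> simp only [q] <;> linarith

instance compactM : CompactSpace M := by
  refine ⟨?_⟩
  have h : (univ : Set M) = mk '' Metric.closedBall 0 4 := by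
    symm
    apply eq_univ_of_forall
    intro m
    obtain ⟨w, rfl⟩ := surjective_mk m
    obtain ⟨γ, hγ, hn⟩ := exists_rep w
    refine ⟨w + γ, by simpa using hn, ?_⟩
    rw [mk_eq_iff]
    have : w - (w + γ) = -γ := by abel
    rw [this]
    exact lat.neg_mem hγ
  rw [h]
  exact (isCompact_closedBall _ _).image continuous_mk

theorem discrete_lat : DiscreteTopology lat := by
  rw [discreteTopology_iff_isOpen_singleton_zero, isOpen_induced_iff]
  refine ⟨Metric.ball 0 1, Metric.isOpen_ball, ?_⟩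
  ext ⟨x, hx⟩
  simp only [mem_preimage, mem_ball_zero_iff, mem_singleton_iff]
  constructor
  · intro h
    exact Subtype.ext (lat_small hx h)
  · intro h
    have : x = 0 := congrArg Subtype.val h
    simp [this]

/-- the flat Kähler form -/
noncomputable def K0 : Form (ℂ × ℂ) 2 :=
  form2 (Complex.reCLM ∘L (ContinuousLinearMap.fst ℝ ℂ ℂ))
      (Complex.imCLM ∘L (ContinuousLinearMap.fst ℝ ℂ ℂ)) +
    form2 (Complex.reCLM ∘L (ContinuousLinearMap.snd ℝ ℂ ℂ))
      (Complex.imCLM ∘L (ContinuousLinearMap.snd ℝ ℂ ℂ))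

theorem K0_apply (v : ℂ × ℂ) :
    K0 ![v, Complex.I • v] = Complex.normSq v.1 + Complex.normSq v.2 := by
  simp only [K0, ContinuousAlternatingMap.add_apply, form2_apply]
  simp [Complex.normSq_apply]

theorem K0_nonneg (v : ℂ × ℂ) : 0 ≤ K0 ![v, Complex.I • v] := by
  rw [K0_apply]
  exact add_nonneg (Complex.normSq_nonneg _) (Complex.normSq_nonneg _)

theorem K0_eq_zero (v : ℂ × ℂ) (h : K0 ![v, Complex.I • v] = 0) : v = 0 := by
  rw [K0_apply] at h
  have h1 := Complex.normSq_nonneg v.1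
  have h2 := Complex.normSq_nonneg v.2
  apply Prod.ext
  · exact Complex.normSq_eq_zero.1 (by linarith)
  · exact Complex.normSq_eq_zero.1 (by linarith)

theorem support_comp_mk (χ : M → ℝ) :
    tsupport (fun x => χ (mk x)) = mk ⁻¹' (tsupport χ) := by
  rw [tsupport, tsupport, isOpenMap_mk.preimage_closure_eq_closure_preimage continuous_mk]
  rfl

/-- the test form `χ K0` -/
noncomputable def scal {U : Opens M} (χ : M → ℝ) (h1 : ContDiff ℝ ∞ (fun x => χ (mk x)))
    (h3 : tsupport χ ⊆ U) : PFormOn lat 2 U :=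
  ⟨(⟨fun x => χ (mk x) • K0, h1.smul contDiff_const, fun γ hγ x => by
      have : mk (x + γ) = mk x := by
        rw [mk_eq_iff]
        have : x - (x + γ) = -γ := by abel
        rw [this]
        exact lat.neg_mem hγ
      simp only [this]⟩ : formSpace lat 2), by
    refine Subset.trans (tsupport_smul_subset_left (fun x => χ (mk x)) (fun _ => K0)) ?_
    rw [support_comp_mk]
    exact preimage_mono h3⟩

theorem scal_apply {U : Opens M} (χ : M → ℝ) (h1 : ContDiff ℝ ∞ (fun x => χ (mk x)))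
    (h3 : tsupport χ ⊆ U) (x : ℂ × ℂ) :
    ((scal χ h1 h3 : PFormOn lat 2 U) : PForm lat 2) x = χ (mk x) • K0 := rfl

theorem continuous_of_comp {χ : M → ℝ} (h1 : ContDiff ℝ ∞ (fun x => χ (mk x))) :
    Continuous χ := by
  have : Topology.IsQuotientMap mk := isQuotientMap_quotient_mk'
  exact this.continuous_iff.2 h1.continuous

/-! ### derivatives of lifts -/

theorem fderiv_smul {f : ℂ → ℂ × ℂ} {z : ℂ} (hf : DifferentiableAt ℂ f z) (ζ : ℂ) :
    fderiv ℝ f z ζ = ζ • fderiv ℝ f z 1 := by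
  have h := hf.hasFDerivAt.restrictScalars ℝ
  rw [h.fderiv]
  simp only [ContinuousLinearMap.coe_restrictScalars']
  have : ζ = ζ • (1 : ℂ) := by simp
  conv_lhs => rw [this]
  rw [map_smul]

variable {S : Type} [TopologicalSpace S] [ChartedSpace ℂ S]

/-- the local integrand -/
noncomputable def dens (f : ℂ → ℂ × ℂ) (φ : OpenPartialHomeomorph S ℂ) (χ : M → ℝ)
    (r : S → ℝ) (z : ℂ) : ℝ :=
  r (φ.symm z) * (χ (mk (f z)) • K0) ![fderiv ℝ f z 1, fderiv ℝ f z Complex.I]

theorem dens_eq {f : ℂ → ℂ × ℂ} {φ : OpenPartialHomeomorph S ℂ} {χ : M → ℝ}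
    {r : S → ℝ} {z : ℂ} (hf : DifferentiableAt ℂ f z) :
    dens f φ χ r z = r (φ.symm z) * χ (mk (f z)) *
      K0 ![fderiv ℝ f z 1, Complex.I • fderiv ℝ f z 1] := by
  rw [dens, fderiv_smul hf Complex.I, ContinuousAlternatingMap.smul_apply, smul_eq_mul, mul_assoc]

theorem dens_nonneg {f : ℂ → ℂ × ℂ} {φ : OpenPartialHomeomorph S ℂ} {χ : M → ℝ}
    (hχ : ∀ y, 0 ≤ χ y) {r : S → ℝ} (hr : ∀ s, 0 ≤ r s) {z : ℂ}
    (hf : DifferentiableAt ℂ f z) : 0 ≤ dens f φ χ r z := by
  rw [dens_eq hf]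
  exact mul_nonneg (mul_nonneg (hr _) (hχ _)) (K0_nonneg _)

theorem deriv_zero_of_dens {f : ℂ → ℂ × ℂ} {φ : OpenPartialHomeomorph S ℂ} {χ : M → ℝ}
    {r : S → ℝ} {z : ℂ} (hf : DifferentiableAt ℂ f z) (hr : r (φ.symm z) ≠ 0)
    (hc : χ (mk (f z)) ≠ 0) (h0 : dens f φ χ r z = 0) : fderiv ℝ f z = 0 := by
  rw [dens_eq hf] at h0
  have h1 := (mul_eq_zero.1 h0).resolve_left (mul_ne_zero hr hc)
  have h2 := K0_eq_zero _ h1
  ext ζ
  · rw [fderiv_smul hf ζ, h2]; simp
  · rw [fderiv_smul hf ζ, h2]; simp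

/-- the data in the definition of the integral -/
structure Data (U : Opens M) (u : S → M) (r : S → ℝ) (φ : OpenPartialHomeomorph S ℂ) (O : Set ℂ)
    (f : ℂ → ℂ × ℂ) : Prop where
  opn : IsOpen O
  sub : O ⊆ φ.target
  supp : tsupport r ⊆ φ.source ∩ φ ⁻¹' O
  hol : DifferentiableOn ℂ f O
  lift : ∀ z ∈ O, mk (f z) = u (φ.symm z)

variable {U : Opens M} {u : S → M} {r : S → ℝ} {φ : OpenPartialHomeomorph S ℂ} {O : Set ℂ}
  {f : ℂ → ℂ × ℂ}

theorem Data.diffAt (h : Data U u r φ O f) {z : ℂ} (hz : z ∈ O) : DifferentiableAt ℂ f z :=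
  (h.hol z hz).differentiableAt (h.opn.mem_nhds hz)

theorem dens_continuousOn (h : Data U u r φ O f) {χ : M → ℝ} (hχ : Continuous χ)
    (hr : Continuous r) : ContinuousOn (dens f φ χ r) O := by
  have h1 : ContinuousOn (fun z => r (φ.symm z)) O :=
    hr.comp_continuousOn (φ.continuousOn_symm.mono h.sub)
  have h2 : ContinuousOn (fun z => χ (mk (f z))) O :=
    hχ.comp_continuousOn (continuous_mk.comp_continuousOn h.hol.continuousOn)
  have hA : ContDiffOn ℂ 1 f O := h.hol.contDiffOn h.opn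
  have h3 : ContinuousOn (fun z => fderiv ℝ f z) O :=
    (hA.restrict_scalars ℝ).continuousOn_fderiv_of_isOpen h.opn le_rfl
  have h4 : ContinuousOn (fun z => K0 ![fderiv ℝ f z 1, fderiv ℝ f z Complex.I]) O := by
    apply K0.cont.comp_continuousOn
    rw [continuousOn_pi]
    intro i
    fin_cases i
    · exact h3.clm_apply continuousOn_const
    · exact h3.clm_apply continuousOn_const
  unfold dens
  apply h1.mul
  simp only [ContinuousAlternatingMap.smul_apply, smul_eq_mul]
  exact h2.mul h4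

theorem dens_support [T2Space S] (hu : IsCurve U S u) (h : Data U u r φ O f)
    {χ : M → ℝ} (hU : tsupport χ ⊆ U) :
    ∃ Q : Set ℂ, IsCompact Q ∧ Q ⊆ O ∧ ∀ z ∈ O, z ∉ Q → dens f φ χ r z = 0 := by
  have hcomp : IsCompact (tsupport r ∩ u ⁻¹' (tsupport χ)) :=
    (hu.proper _ hU (isClosed_tsupport χ).isCompact).inter_left (isClosed_tsupport r)
  refine ⟨φ '' (tsupport r ∩ u ⁻¹' (tsupport χ)), ?_, ?_, ?_⟩
  · exact hcomp.image_of_continuousOn (φ.continuousOn.mono
      (inter_subset_left.trans (h.supp.trans inter_subset_left)))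
  · rintro _ ⟨s, ⟨hs, _⟩, rfl⟩
    exact (h.supp hs).2
  · intro z hz hzQ
    unfold dens
    by_cases h1 : r (φ.symm z) = 0
    · simp [h1]
    · by_cases h2 : χ (mk (f z)) = 0
      · simp [h2]
      · exfalso
        apply hzQ
        refine ⟨φ.symm z, ⟨subset_tsupport _ h1, ?_⟩, φ.right_inv (h.sub hz)⟩
        rw [mem_preimage, ← h.lift z hz]
        exact subset_tsupport χ h2

theorem dens_integrableOn [T2Space S] (hu : IsCurve U S u) (h : Data U u r φ O f)
    {χ : M → ℝ} (hχ : Continuous χ) (hU : tsupport χ ⊆ U) (hrc : Continuous r) :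
    IntegrableOn (dens f φ χ r) O := by
  obtain ⟨Q, hQ1, hQ2, hQ3⟩ := dens_support hu h hU
  have h1 : IntegrableOn (dens f φ χ r) Q :=
    ((dens_continuousOn h hχ hrc).mono hQ2).integrableOn_compact hQ1
  have h2 : IntegrableOn (dens f φ χ r) (O \ Q) := by
    have : EqOn (dens f φ χ r) (fun _ => 0) (O \ Q) := fun z hz => hQ3 z hz.1 hz.2
    rw [integrableOn_congr_fun this (h.opn.measurableSet.diff hQ1.measurableSet)]
    exact integrableOn_zero
  have : O ⊆ Q ∪ (O \ Q) := by
    intro z hz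
    by_cases h : z ∈ Q
    · exact Or.inl h
    · exact Or.inr ⟨hz, h⟩
  exact (h1.union h2).mono_set this

theorem dens_zero_of_integral [T2Space S] (hu : IsCurve U S u) (h : Data U u r φ O f)
    {χ : M → ℝ} (hχ0 : ∀ y, 0 ≤ χ y) (hχ : Continuous χ) (hU : tsupport χ ⊆ U)
    (hr0 : ∀ s, 0 ≤ r s) (hrc : Continuous r)
    (h0 : ∫ z in O, dens f φ χ r z = 0) : ∀ z ∈ O, dens f φ χ r z = 0 := by
  have hint := dens_integrableOn hu h hχ hU hrc
  have hnn : 0 ≤ᵐ[volume.restrict O] dens f φ χ r := by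
    rw [Filter.EventuallyLE, ae_restrict_iff' h.opn.measurableSet]
    exact Filter.Eventually.of_forall (fun z hz => dens_nonneg hχ0 hr0 (h.diffAt hz))
  have h1 := (setIntegral_eq_zero_iff_of_nonneg_ae hnn hint).1 h0
  exact Measure.eqOn_open_of_ae_eq h1 h.opn (dens_continuousOn h hχ hrc) continuousOn_const

/-- the main lemma on masses -/
theorem mass [T2Space S] (hu : IsCurve U S u) {ι : Type}
    (ρ : PartitionOfUnity ι S univ) (φ : ι → OpenPartialHomeomorph S ℂ) (O : ι → Set ℂ)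
    (f : ι → ℂ → ℂ × ℂ) (hρ : ∀ i, Data U u (ρ i) (φ i) (O i) (f i))
    {χ : M → ℝ} (hχ0 : ∀ y, 0 ≤ χ y) (hχ : Continuous χ) (hU : tsupport χ ⊆ U) :
    0 ≤ ∑ᶠ i, ∫ z in O i, dens (f i) (φ i) χ (ρ i) z ∧
    (∑ᶠ i, ∫ z in O i, dens (f i) (φ i) χ (ρ i) z = 0 →
      ∀ s, 0 < χ (u s) → ∀ᶠ t in 𝓝 s, u t = u s) ∧
    (∑ᶠ i, ∫ z in O i, dens (f i) (φ i) χ (ρ i) z ≠ 0 →
      ∃ s, χ (u s) ≠ 0 ∧ ¬ ∀ᶠ t in 𝓝 s, u t = u s) := by
  have hnn : ∀ i, 0 ≤ ∫ z in O i, dens (f i) (φ i) χ (ρ i) z := by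
    intro i
    apply setIntegral_nonneg (hρ i).opn.measurableSet
    intro z hz
    exact dens_nonneg hχ0 (ρ.nonneg i) ((hρ i).diffAt hz)
  have hfin : (support fun i => ∫ z in O i, dens (f i) (φ i) χ (ρ i) z).Finite := by
    have hcomp := hu.proper _ hU (isClosed_tsupport χ).isCompact
    apply (ρ.locallyFinite.finite_nonempty_inter_compact hcomp).subset
    intro i hi
    by_contra hne
    apply hi
    apply setIntegral_eq_zero_of_forall_eq_zero
    intro z hz
    unfold dens
    by_cases h1 : ρ i ((φ i).symm z) = 0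
    · simp [h1]
    · by_cases h2 : χ (mk (f i z)) = 0
      · simp [h2]
      · exfalso
        apply hne
        refine ⟨(φ i).symm z, h1, ?_⟩
        rw [mem_preimage, ← (hρ i).lift z hz]
        exact subset_tsupport χ h2
  refine ⟨finsum_nonneg hnn, ?_, ?_⟩
  · intro h0 s hs
    have hall : ∀ i, ∫ z in O i, dens (f i) (φ i) χ (ρ i) z = 0 := by
      intro i
      apply le_antisymm _ (hnn i)
      rw [← h0]
      exact single_le_finsum i hfin hnn
    -- an index with positive weight at s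
    have hsum : ∑ᶠ i, ρ i s = 1 := ρ.sum_eq_one (mem_univ s)
    obtain ⟨i, hi⟩ : ∃ i, ρ i s ≠ 0 := by
      by_contra hno
      push Not at hno
      simp [hno] at hsum
    obtain ⟨hss, hsO⟩ := (hρ i).supp (subset_tsupport _ hi)
    have hdz := dens_zero_of_integral hu (hρ i) hχ0 hχ hU (ρ.nonneg i) (ρ i).continuous (hall i)
    -- an open neighbourhood on which both weights are nonzero
    have hN : ∀ᶠ t in 𝓝 s, ρ i t ≠ 0 ∧ χ (u t) ≠ 0 := by
      apply Filter.Eventually.and
      · exact (ρ i).continuous.continuousAt.eventually_ne hi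
      · exact (hχ.comp hu.continuous).continuousAt.eventually_ne hs.ne'
    have hN2 : ∀ᶠ z in 𝓝 (φ i s), z ∈ O i ∧
        (ρ i ((φ i).symm z) ≠ 0 ∧ χ (u ((φ i).symm z)) ≠ 0) := by
      apply Filter.Eventually.and ((hρ i).opn.mem_nhds hsO)
      exact ((φ i).tendsto_symm hss).eventually hN
    obtain ⟨ε, hε, hball⟩ := Metric.eventually_nhds_iff_ball.1 hN2
    have hconst : ∀ z ∈ Metric.ball (φ i s) ε, f i z = f i (φ i s) := by
      intro z hz
      have hder : EqOn (fderiv ℝ (f i)) 0 (Metric.ball (φ i s) ε) := by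
        intro w hw
        obtain ⟨h1, h2, h3⟩ := hball w hw
        rw [← (hρ i).lift w h1] at h3
        exact deriv_zero_of_dens ((hρ i).diffAt h1) h2 h3 (hdz w h1)
      have hdiff : DifferentiableOn ℝ (f i) (Metric.ball (φ i s) ε) := by
        intro w hw
        obtain ⟨h1, h2, h3⟩ := hball w hw
        exact (((hρ i).diffAt h1).restrictScalars ℝ).differentiableWithinAt
      exact Metric.isOpen_ball.is_const_of_fderiv_eq_zero
        (convex_ball _ _).isPreconnected hdiff hder hz (Metric.mem_ball_self hε)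
    have hev : ∀ᶠ t in 𝓝 s, φ i t ∈ Metric.ball (φ i s) ε ∧ t ∈ (φ i).source := by
      apply Filter.Eventually.and
      · exact ((φ i).continuousAt hss).eventually (Metric.ball_mem_nhds _ hε)
      · exact (φ i).open_source.mem_nhds hss
    filter_upwards [hev] with t ht
    have h1 := hconst _ ht.1
    have h2 := (hρ i).lift _ (hball _ ht.1).1
    have h3 := (hρ i).lift _ hsO
    rw [(φ i).left_inv ht.2] at h2
    rw [(φ i).left_inv hss] at h3
    rw [← h2, ← h3, h1]
  · intro hne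
    by_contra hcon
    push Not at hcon
    apply hne
    apply finsum_eq_zero_of_forall_eq_zero
    intro i
    apply setIntegral_eq_zero_of_forall_eq_zero
    intro z hz
    unfold dens
    by_cases h2 : χ (mk (f i z)) = 0
    · simp [h2]
    · have h3 := hcon ((φ i).symm z) (by rwa [← (hρ i).lift z hz])
      have h4 : ∀ᶠ w in 𝓝 z, u ((φ i).symm w) = u ((φ i).symm z) :=
        ((φ i).symm.continuousAt (x := z) ((hρ i).sub hz)).eventually h3
      have hfc : ContinuousAt (f i) z := ((hρ i).diffAt hz).continuousAt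
      have h5 : ∀ᶠ w in 𝓝 z, f i w = f i z := by
        have h6 : ∀ᶠ w in 𝓝 z, ‖f i w - f i z‖ < 1 := by
          have : ContinuousAt (fun w => ‖f i w - f i z‖) z := (hfc.sub continuousAt_const).norm
          exact this.eventually (gt_mem_nhds (by simp))
        filter_upwards [h4, h6, (hρ i).opn.mem_nhds hz] with w hw1 hw2 hw3
        rw [← (hρ i).lift w hw3, ← (hρ i).lift z hz, eq_comm, mk_eq_iff] at hw1
        exact sub_eq_zero.1 (lat_small hw1 hw2)
      have h6 : fderiv ℝ (f i) z = 0 := by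
        have h7 : (f i) =ᶠ[𝓝 z] fun _ => f i z := h5
        rw [h7.fderiv_eq]
        simp
      rw [h6]
      have h8 : (![(0 : ℂ →L[ℝ] ℂ × ℂ) 1, (0 : ℂ →L[ℝ] ℂ × ℂ) Complex.I] : Fin 2 → ℂ × ℂ) = 0 := by
        funext k
        fin_cases k <;> simp
      rw [h8, ContinuousAlternatingMap.map_zero]
      simp

end Pool.Agent.H994R4.Torus
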