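import Mathlib
import Pool.Agent.H994R4.TorusMass
import Pool.Agent.H994R3.LeafwiseMain

set_option autoImplicit false

open MeasureTheory TopologicalSpace Set Function
open scoped Manifold ContDiff Topology
open Pool.Agent.H994R3.Leafwise (Form HolC identity open_or_const const_of_re_zero
  exists_value_sub TR dirR cplx cplx_apply)

namespace Pool.Agent.H994R4.Torus

section Local

variable {S : Type} [TopologicalSpace S] [ChartedSpace ℂ S]

theorem curve_contra [ConnectedSpace S] {R : ℝ} {a : S → ℂ × ℂ}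
    (hproper : ∀ K : Set (ℂ × ℂ), K ⊆ Metric.ball 0 R → IsCompact K → IsCompact (a ⁻¹' K))
    {h : S → ℂ} (hh : HolC h)
    (hhc : Continuous h) (hne : ¬ ∃ c, ∀ s, h s = c) (hre : ∀ s, 0 ≤ (h s).re)
    {v b : ℂ × ℂ} (hv : v ≠ 0) (huh : ∀ s, a s = h s • v + b) (s₀ : S) {M' : ℝ}
    (hM : (h s₀).re < M')
    (hseg : ∀ τ ∈ Icc (0 : ℝ) M', (h s₀ - (τ : ℂ)) • v + b ∈ Metric.ball (0 : ℂ × ℂ) R) :
    False := by
  set f : ℝ → ℂ × ℂ := fun τ => (h s₀ - (τ : ℂ)) • v + b with hf
  have hfc : Continuous f := by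
    rw [hf]
    fun_prop
  have hM0 : 0 ≤ M' := (hre s₀).trans hM.le
  have hK : IsCompact (f '' Icc 0 M') := isCompact_Icc.image hfc
  have hKU : f '' Icc 0 M' ⊆ Metric.ball 0 R := by
    rintro _ ⟨τ, hτ, rfl⟩
    exact hseg τ hτ
  have hP := hproper _ hKU hK
  have hs₀ : s₀ ∈ a ⁻¹' (f '' Icc 0 M') := by
    refine ⟨0, ⟨le_rfl, hM0⟩, ?_⟩
    rw [huh s₀, hf]
    simp
  obtain ⟨s₁, hs₁, hmin⟩ := hP.exists_isMinOn ⟨s₀, hs₀⟩
    (Complex.continuous_re.comp hhc).continuousOn
  obtain ⟨τ, hτ, hτe⟩ := hs₁
  have hval : h s₁ = h s₀ - (τ : ℂ) := by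
    rw [huh s₁, hf] at hτe
    have h2 : (h s₀ - (τ : ℂ)) • v = h s₁ • v := add_right_cancel hτe
    exact (smul_left_injective ℂ hv h2).symm
  have hτM : τ < M' := by
    have h1 := hre s₁
    rw [hval] at h1
    simp at h1
    linarith
  obtain ⟨x, hx0, hxP, t, ht⟩ := exists_value_sub hh hne s₁ (P := fun x => x < M' - τ) (by
    have : Iio (M' - τ) ∈ 𝓝 (0 : ℝ) := Iio_mem_nhds (by linarith)
    exact nhdsWithin_le_nhds this)
  have htP : t ∈ a ⁻¹' (f '' Icc 0 M') := by
    refine ⟨τ + x, ⟨by linarith [hτ.1], by linarith⟩, ?_⟩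
    rw [huh t, hf, ht, hval]
    simp only [Complex.ofReal_add]
    congr 2
    ring_nf
  have h1 : (h s₁).re ≤ (h t).re := hmin htP
  rw [ht] at h1
  simp at h1
  linarith

theorem local_contra [ConnectedSpace S] {R : ℝ} (hR : 0 < R) {a : S → ℂ × ℂ}
    (hproper : ∀ K : Set (ℂ × ℂ), K ⊆ Metric.ball 0 R → IsCompact K → IsCompact (a ⁻¹' K))
    (hah : HolC a) (hac : Continuous a) (haTR : ∀ s, TR ((a s).1.re, (a s).2.re))
    (hnc : ¬ ∃ c, ∀ s, a s = c) (s₀ : S) (hs₀ : ‖a s₀‖ < R / 4) : False := by
  have hzh : HolC (fun s => (a s).1) := fun φ hφ => (hah φ hφ).fst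
  have hwh : HolC (fun s => (a s).2) := fun φ hφ => (hah φ hφ).snd
  have hzc : Continuous (fun s => (a s).1) := continuous_fst.comp hac
  have hwc : Continuous (fun s => (a s).2) := continuous_snd.comp hac
  -- the general conclusion: `a = h • v + b`
  have key : ∀ (h : S → ℂ) (v b : ℂ × ℂ), HolC h → Continuous h → v ≠ 0 → ‖v‖ ≤ 1 →
      (∀ s, a s = h s • v + b) → (∀ s, 0 ≤ (h s).re) → (h s₀).re ≤ ‖a s₀‖ → False := by
    intro h v b hh hhc hv hv1 hab hre hle
    have hhn : ¬ ∃ c, ∀ s, h s = c := by
      rintro ⟨c, hc⟩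
      apply hnc
      refine ⟨c • v + b, fun s => ?_⟩
      rw [hab, hc]
    refine curve_contra hproper hh hhc hhn hre hv hab s₀
      (M' := (h s₀).re + R / 4) (by linarith) ?_
    intro τ hτ
    rw [mem_ball_zero_iff]
    have e : (h s₀ - (τ : ℂ)) • v + b = a s₀ - (τ : ℂ) • v := by
      rw [hab, sub_smul]
      abel
    rw [e]
    have h1 : ‖(τ : ℂ) • v‖ ≤ R / 4 + R / 4 := by
      rw [norm_smul, Complex.norm_real, Real.norm_of_nonneg hτ.1]
      have hτ2 : τ ≤ R / 4 + R / 4 := by linarith [hτ.2]
      calc τ * ‖v‖ ≤ τ * 1 := mul_le_mul_of_nonneg_left hv1 hτ.1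
        _ ≤ R / 4 + R / 4 := by linarith
    calc ‖a s₀ - (τ : ℂ) • v‖ ≤ ‖a s₀‖ + ‖(τ : ℂ) • v‖ := norm_sub_le _ _
      _ < R := by linarith
  -- three closed sets cover the surface
  set A0 : Set S := {s | (a s).2.re = 0 ∧ (a s).1.re ≤ 0} with hA0
  set A1 : Set S := {s | (a s).1.re = 0 ∧ (a s).2.re ≤ 0} with hA1
  set A2 : Set S := {s | (a s).1.re = (a s).2.re ∧ 0 ≤ (a s).1.re} with hA2
  have hzr : Continuous (fun s => (a s).1.re) := Complex.continuous_re.comp hzc
  have hwr : Continuous (fun s => (a s).2.re) := Complex.continuous_re.comp hwc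
  have hc0 : IsClosed A0 :=
    (isClosed_eq hwr continuous_const).inter (isClosed_le hzr continuous_const)
  have hc1 : IsClosed A1 :=
    (isClosed_eq hzr continuous_const).inter (isClosed_le hwr continuous_const)
  have hc2 : IsClosed A2 := (isClosed_eq hzr hwr).inter (isClosed_le continuous_const hzr)
  have hcov : A0 ∪ (A1 ∪ A2) = univ := by
    apply eq_univ_of_forall
    intro s
    rcases haTR s with h | h | h
    · left; exact h
    · right; left; exact h
    · right; right; exact h
  have hint : (interior A0).Nonempty ∨ (interior A1).Nonempty ∨ (interior A2).Nonempty := by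
    by_contra hcon
    push Not at hcon
    obtain ⟨h0, h1, h2⟩ := hcon
    have h3 : interior (A1 ∪ A2) = ∅ := by
      rw [interior_union_isClosed_of_interior_empty hc1 h2, h1]
    have h4 : interior (A0 ∪ (A1 ∪ A2)) = ∅ := by
      rw [interior_union_isClosed_of_interior_empty hc0 h3, h0]
    rw [hcov, interior_univ] at h4
    exact (Set.univ_nonempty (α := S)).ne_empty h4
  rcases hint with ⟨s₁, h1⟩ | ⟨s₁, h1⟩ | ⟨s₁, h1⟩
  · -- `w` is constant
    have h2 : ∀ᶠ t in 𝓝 s₁, (a t).2.re = 0 := by
      filter_upwards [isOpen_interior.mem_nhds h1] with t ht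
      exact (interior_subset ht).1
    have h3 := identity hwh _ s₁ (const_of_re_zero hwh s₁ h2)
    have h4 : (a s₁).2.re = 0 := h2.self_of_nhds
    refine key (fun s => -(a s).1) (-1, 0) (0, (a s₁).2) (fun φ hφ => (hzh φ hφ).neg) hzc.neg
      (by simp) (by simp) ?_ ?_ ?_
    · intro s
      apply Prod.ext
      · simp
      · simp [h3 s]
    · intro s
      have h5 := haTR s
      have h6 : (a s).2.re = 0 := by rw [h3 s, h4]
      rcases h5 with h | h | h
      · simp only [Complex.neg_re]
        linarith [h.2]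
      · simp only [Complex.neg_re]
        have := h.1
        simp only at this
        linarith
      · simp only [Complex.neg_re]
        have := h.1
        simp only at this
        linarith
    · calc (-(a s₀).1).re ≤ ‖-(a s₀).1‖ := Complex.re_le_norm _
        _ = ‖(a s₀).1‖ := norm_neg _
        _ ≤ ‖a s₀‖ := norm_fst_le _
  · -- `z` is constant
    have h2 : ∀ᶠ t in 𝓝 s₁, (a t).1.re = 0 := by
      filter_upwards [isOpen_interior.mem_nhds h1] with t ht
      exact (interior_subset ht).1
    have h3 := identity hzh _ s₁ (const_of_re_zero hzh s₁ h2)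
    have h4 : (a s₁).1.re = 0 := h2.self_of_nhds
    refine key (fun s => -(a s).2) (0, -1) ((a s₁).1, 0) (fun φ hφ => (hwh φ hφ).neg) hwc.neg
      (by simp) (by simp) ?_ ?_ ?_
    · intro s
      apply Prod.ext
      · simp [h3 s]
      · simp
    · intro s
      have h5 := haTR s
      have h6 : (a s).1.re = 0 := by rw [h3 s, h4]
      rcases h5 with h | h | h
      · simp only [Complex.neg_re]
        have := h.1
        simp only at this
        linarith
      · simp only [Complex.neg_re]
        linarith [h.2]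
      · simp only [Complex.neg_re]
        have := h.1
        simp only at this
        linarith
    · calc (-(a s₀).2).re ≤ ‖-(a s₀).2‖ := Complex.re_le_norm _
        _ = ‖(a s₀).2‖ := norm_neg _
        _ ≤ ‖a s₀‖ := norm_snd_le _
  · -- `z - w` is constant
    have hdh : HolC (fun s => (a s).1 - (a s).2) := fun φ hφ => (hzh φ hφ).sub (hwh φ hφ)
    have h2 : ∀ᶠ t in 𝓝 s₁, ((a t).1 - (a t).2).re = 0 := by
      filter_upwards [isOpen_interior.mem_nhds h1] with t ht
      have := (interior_subset ht).1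
      simp [this]
    have h3 := identity hdh _ s₁ (const_of_re_zero hdh s₁ h2)
    have h4 : ((a s₁).1 - (a s₁).2).re = 0 := h2.self_of_nhds
    refine key (fun s => (a s).2) (1, 1) ((a s₁).1 - (a s₁).2, 0) hwh hwc
      (by simp) (by simp [Prod.norm_mk]) ?_ ?_ ?_
    · intro s
      apply Prod.ext
      · simp only [Prod.fst_add, Prod.smul_fst, smul_eq_mul, mul_one]
        linear_combination h3 s
      · simp
    · intro s
      have h5 := haTR s
      have h6 : (a s).1.re = (a s).2.re := by
        have := congrArg Complex.re (h3 s)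
        rw [h4] at this
        simp only [Complex.sub_re] at this
        linarith
      rcases h5 with h | h | h
      · exact le_of_eq h.1.symm
      · have := h.1
        simp only at this
        linarith
      · have := h.2
        simp only at this
        linarith
    · exact (Complex.re_le_norm _).trans (norm_snd_le _)

end Local

/-! ### the support -/

instance t2M : T2Space M := by
  have := discrete_lat
  have hcl : IsClosed (lat : Set (ℂ × ℂ)) := AddSubgroup.isClosed_of_discrete
  have : T3Space M := inferInstance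
  infer_instance

/-- the support of the current -/
def supp : Set M := ⋃ k : Fin 3, (fun x => mk (ps k x)) '' Q3

theorem isClosed_supp : IsClosed supp := by
  apply isClosed_iUnion_of_finite
  intro k
  exact (isCompact_Q3.image (continuous_mk.comp (ps k).continuous)).isClosed

theorem mem_supp (k : Fin 3) {x : ℝ × (ℝ × ℝ)} (hx : x ∈ Q3) : mk (ps k x) ∈ supp :=
  mem_iUnion.2 ⟨k, x, hx, rfl⟩

theorem TR_of_mem {x : ℂ × ℂ} (hx : ‖x‖ < 1 / 2) (h : mk x ∈ supp) : TR (x.1.re, x.2.re) := by
  obtain ⟨k, y, hy, hxy⟩ := mem_iUnion.1 h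
  simp only at hxy
  rw [mk_eq_iff] at hxy
  obtain ⟨a, b, p, q, hab, he⟩ := hxy
  have hxe : x = ps k y + ((a : ℂ) + p * Complex.I, (b : ℂ) + q * Complex.I) := by
    rw [← he]
    abel
  have h1 : x.1.re = y.1 * (dirR k).1 + a := by
    rw [hxe, ps_apply]
    simp [V, cplx_apply]
  have h2 : x.2.re = y.1 * (dirR k).2 + b := by
    rw [hxe, ps_apply]
    simp [V, cplx_apply]
  have hr0 : 0 ≤ y.1 := hy.1.1
  have hr1 : y.1 ≤ 1 := hy.1.2
  have n1 : |x.1.re| < 1 / 2 := ((Complex.abs_re_le_norm _).trans (norm_fst_le _)).trans_lt hx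
  have n2 : |x.2.re| < 1 / 2 := ((Complex.abs_re_le_norm _).trans (norm_snd_le _)).trans_lt hx
  rw [abs_lt] at n1 n2
  fin_cases k
  · simp only [dirR] at h1 h2
    simp at h1 h2
    have hb : b = 0 := by
      have l1 : (-1 : ℝ) < b := by linarith
      have l2 : (b : ℝ) < 1 := by linarith
      have l1' : (-1 : ℤ) < b := by exact_mod_cast l1
      have l2' : b < (1 : ℤ) := by exact_mod_cast l2
      omega
    have ha : a = 0 := by
      have l1 : (-1 : ℝ) < a := by linarith
      have l2 : (a : ℝ) < 2 := by linarith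
      have l1' : (-1 : ℤ) < a := by exact_mod_cast l1
      have l2' : a < (2 : ℤ) := by exact_mod_cast l2
      omega
    subst ha hb
    left
    simp at h1 h2
    exact ⟨h2, by simp only; linarith⟩
  · simp only [dirR] at h1 h2
    simp at h1 h2
    have ha : a = 0 := by
      have l1 : (-1 : ℝ) < a := by linarith
      have l2 : (a : ℝ) < 1 := by linarith
      have l1' : (-1 : ℤ) < a := by exact_mod_cast l1
      have l2' : a < (1 : ℤ) := by exact_mod_cast l2
      omega
    have hb : b = 0 := by
      have l1 : (-1 : ℝ) < b := by linarith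
      have l2 : (b : ℝ) < 2 := by linarith
      have l1' : (-1 : ℤ) < b := by exact_mod_cast l1
      have l2' : b < (2 : ℤ) := by exact_mod_cast l2
      omega
    subst ha hb
    right; left
    simp at h1 h2
    exact ⟨h1, by simp only; linarith⟩
  · simp only [dirR] at h1 h2
    simp at h1 h2
    have ha : -2 < a ∧ a < 1 := by
      have l1 : (-2 : ℝ) < a := by linarith
      have l2 : (a : ℝ) < 1 := by linarith
      exact ⟨by exact_mod_cast l1, by exact_mod_cast l2⟩
    have hb : -2 < b ∧ b < 1 := by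
      have l1 : (-2 : ℝ) < b := by linarith
      have l2 : (b : ℝ) < 1 := by linarith
      exact ⟨by exact_mod_cast l1, by exact_mod_cast l2⟩
    have ha0 : a = 0 := by omega
    have hb0 : b = 0 := by omega
    subst ha0 hb0
    right; right
    simp at h1 h2
    exact ⟨by simp only; rw [h1, h2], by simp only; linarith⟩

end Pool.Agent.H994R4.Torus
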