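import Mathlib
import Pool.Agent.H994R4.TorusLocal

set_option autoImplicit false

open MeasureTheory TopologicalSpace Set Function
open scoped Manifold ContDiff Topology
open Pool.Agent.H994R3.Leafwise (Form HolC identity open_or_const const_of_re_zero
  exists_value_sub TR eventually_chart)

namespace Pool.Agent.H994R4.Torus

variable {S : Type} [TopologicalSpace S] [ChartedSpace ℂ S] {U : Opens M} {u : S → M}

/-- `u` is locally constant near `s` -/
def LC (u : S → M) (s : S) : Prop := ∀ᶠ t in 𝓝 s, u t = u s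

theorem LC_open : IsOpen {s | LC u s} := by
  rw [isOpen_iff_mem_nhds]
  intro s hs
  have h1 : ∀ᶠ t in 𝓝 s, u t = u s := hs
  filter_upwards [h1.eventually_nhds, h1] with t ht ht'
  show ∀ᶠ t' in 𝓝 t, u t' = u t
  filter_upwards [ht] with t' h2
  rw [h2, ht']

/-- if the local lift is constant near `w`, the map is, and conversely -/
theorem lift_const {f : ℂ → ℂ × ℂ} {g : ℂ → M} {z : ℂ} (hf : ContinuousAt f z)
    (hfg : ∀ᶠ w in 𝓝 z, mk (f w) = g w) (hg : ∀ᶠ w in 𝓝 z, g w = g z) :
    ∀ᶠ w in 𝓝 z, f w = f z := by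
  have h6 : ∀ᶠ w in 𝓝 z, ‖f w - f z‖ < 1 := by
    have : ContinuousAt (fun w => ‖f w - f z‖) z := (hf.sub continuousAt_const).norm
    exact this.eventually (gt_mem_nhds (by simp))
  have hz := hfg.self_of_nhds
  filter_upwards [hfg, hg, h6] with w h1 h2 h3
  have h4 : mk (f z) = mk (f w) := by rw [h1, h2, hz]
  rw [mk_eq_iff] at h4
  exact sub_eq_zero.1 (lat_small h4 h3)

theorem LC_closed (hu : IsCurve U S u) : IsClosed {s | LC u s} := by
  rw [← isOpen_compl_iff, isOpen_iff_mem_nhds]
  intro s hs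
  have hzt := mem_chart_target ℂ s
  set z := chartAt ℂ s s with hz
  obtain ⟨f, hf, hfu⟩ := hu.holo _ (chart_mem_atlas ℂ s) _ hzt
  have hsz : (chartAt ℂ s).symm z = s := (chartAt ℂ s).left_inv (mem_chart_source ℂ s)
  have hf' : ∀ᶠ w in 𝓝 z, AnalyticAt ℂ f w := hf.eventually_analyticAt
  rcases hf.deriv.eventually_eq_zero_or_eventually_ne_zero with h0 | h0
  · exfalso
    apply hs
    show ∀ᶠ t in 𝓝 s, u t = u s
    rw [eventually_chart, ← hz]
    obtain ⟨ε, hε, hball⟩ := Metric.eventually_nhds_iff_ball.1 (h0.and (hf'.and hfu))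
    filter_upwards [Metric.ball_mem_nhds z hε] with w hw
    have hconst : f w = f z := by
      have hder : EqOn (deriv f) 0 (Metric.ball z ε) := fun w' hw' => (hball w' hw').1
      have hdiff : DifferentiableOn ℂ f (Metric.ball z ε) := fun w' hw' =>
        (hball w' hw').2.1.differentiableAt.differentiableWithinAt
      exact Metric.isOpen_ball.is_const_of_deriv_eq_zero
        (convex_ball _ _).isPreconnected hdiff hder hw (Metric.mem_ball_self hε)
    have h1 := (hball w hw).2.2
    have h2 := (hball z (Metric.mem_ball_self hε)).2.2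
    rw [hsz] at h2
    change mk (f w) = _ at h1
    change mk (f z) = _ at h2
    rw [← h1, hconst, h2]
  · have h1 : ∀ᶠ w in 𝓝 z, w ≠ z → deriv f w ≠ 0 := by
      rw [eventually_nhdsWithin_iff] at h0
      exact h0
    have h2 : ∀ᶠ w in 𝓝 z, (w ≠ z → deriv f w ≠ 0) ∧
        (AnalyticAt ℂ f w ∧ (f w : (ℂ × ℂ) ⧸ lat) = u ((chartAt ℂ s).symm w)) ∧
        w ∈ (chartAt ℂ s).target :=
      h1.and ((hf'.and hfu).and ((chartAt ℂ s).open_target.mem_nhds hzt))
    have h3 := h2.eventually_nhds
    show ∀ᶠ t in 𝓝 s, ¬ LC u t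
    rw [eventually_chart, ← hz]
    filter_upwards [h3] with w hw hLC
    have hwt : w ∈ (chartAt ℂ s).target := hw.self_of_nhds.2.2
    have h4 : ∀ᶠ w' in 𝓝 w, u ((chartAt ℂ s).symm w') = u ((chartAt ℂ s).symm w) :=
      ((chartAt ℂ s).symm.continuousAt (x := w) hwt).eventually hLC
    have h5 : ∀ᶠ w' in 𝓝 w, f w' = f w :=
      lift_const hw.self_of_nhds.2.1.1.continuousAt (hw.mono fun w' h => h.2.1.2) h4
    have h6 : ∀ᶠ w' in 𝓝 w, deriv f w' = 0 := by
      filter_upwards [h5.eventually_nhds] with w' h7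
      have h8 : f =ᶠ[𝓝 w'] fun _ => f w := h7
      rw [h8.deriv_eq]
      simp
    have h7 : ∀ᶠ w' in 𝓝 w, w' = z := by
      filter_upwards [hw, h6] with w' h8 h9
      by_contra hne
      exact h8.1 hne h9
    have h8 : w = z := h7.self_of_nhds
    rw [h8] at h7
    have h9 : ∀ᶠ w in 𝓝[≠] z, False := by
      rw [eventually_nhdsWithin_iff]
      filter_upwards [h7] with w' h10 hne
      exact hne h10
    exact h9.exists.elim fun _ h => h

theorem LC_all [PreconnectedSpace S] (hu : IsCurve U S u) (s₁ : S) (h : LC u s₁) :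
    ∀ s, LC u s := by
  have h1 : {s | LC u s} = univ :=
    IsClopen.eq_univ ⟨LC_closed hu, LC_open⟩ ⟨s₁, h⟩
  intro s
  have : s ∈ {s | LC u s} := by rw [h1]; trivial
  exact this

theorem curve_final [T2Space S] [ConnectedSpace S] (hu : IsCurve U S u) {R : ℝ} (hR : 0 < R)
    (hR4 : R ≤ 1 / 4) (hRU : mk '' Metric.ball 0 R ⊆ U)
    (hoff : ∀ s, u s ∉ supp → LC u s) (s₀ : S) (hs₀ : u s₀ ∈ mk '' Metric.ball 0 (R / 4))
    (hs₀' : ¬ LC u s₀) : False := by
  have hin : ∀ s, u s ∈ supp := by
    intro s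
    by_contra hs
    exact hs₀' (LC_all hu s (hoff s hs) s₀)
  have : LocallyConnectedSpace S := ChartedSpace.locallyConnectedSpace ℂ S
  set B : Set (ℂ × ℂ) := Metric.ball 0 R with hB
  have hBo : IsOpen B := Metric.isOpen_ball
  set W : Set S := u ⁻¹' (mk '' B) with hW
  have hWo : IsOpen W := (isOpenMap_mk _ hBo).preimage hu.continuous
  have hs₀W : s₀ ∈ W := by
    obtain ⟨b, hb, hbe⟩ := hs₀
    exact ⟨b, Metric.ball_subset_ball (by linarith) hb, hbe⟩
  -- uniqueness of representatives
  have huniq : ∀ x ∈ B, ∀ y ∈ B, mk x = mk y → x = y := by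
    intro x hx y hy hxy
    rw [mk_eq_iff] at hxy
    rw [hB, mem_ball_zero_iff] at hx hy
    have : ‖y - x‖ < 1 := (norm_sub_le _ _).trans_lt (by linarith)
    exact (sub_eq_zero.1 (lat_small hxy this)).symm
  set C : Opens S := ⟨connectedComponentIn W s₀, hWo.connectedComponentIn⟩ with hC
  have hCW : (C : Set S) ⊆ W := connectedComponentIn_subset W s₀
  have hs₀C : s₀ ∈ C := mem_connectedComponentIn hs₀W
  have hCconn : ConnectedSpace C := by
    have : IsConnected (C : Set S) := isConnected_connectedComponentIn_iff.2 hs₀W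
    exact isConnected_iff_connectedSpace.1 this
  -- the lift
  have hex : ∀ s : C, ∃ b, b ∈ B ∧ mk b = u s.1 := by
    intro s
    obtain ⟨b, hb, hbe⟩ := hCW s.2
    exact ⟨b, hb, hbe⟩
  choose a haB hau using hex
  have hac : Continuous a := by
    rw [continuous_iff_continuousAt]
    intro s
    intro N hN
    rw [Filter.mem_map]
    have hN2 : N ∩ B ∈ 𝓝 (a s) := Filter.inter_mem hN (hBo.mem_nhds (haB s))
    have h1 : mk '' (N ∩ B) ∈ 𝓝 (u s.1) := by
      rw [← hau s]
      exact isOpenMap_mk.image_mem_nhds hN2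
    have h2 : ∀ᶠ t : C in 𝓝 s, u t.1 ∈ mk '' (N ∩ B) :=
      (hu.continuous.comp continuous_subtype_val).continuousAt.eventually h1
    filter_upwards [h2] with t ht
    obtain ⟨n, hn, hne⟩ := ht
    have : a t = n := huniq _ (haB t) _ hn.2 (by rw [hau t, hne])
    show a t ∈ N
    rw [this]
    exact hn.1
  have hah : HolC a := by
    intro φ hφ z hz
    apply DifferentiableAt.differentiableWithinAt
    obtain ⟨x, hx⟩ := mem_iUnion.1 hφ
    rw [mem_singleton_iff] at hx
    subst hx
    set ψ := chartAt ℂ x.1 with hψ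
    have hCne : Nonempty C := ⟨x⟩
    have hzψ : z ∈ ψ.target := ψ.subtypeRestr_target_subset hCne hz
    obtain ⟨f, hf, hfu⟩ := hu.holo ψ (chart_mem_atlas ℂ x.1) z hzψ
    have hmap : ∀ᶠ w in 𝓝 z, mk (a ((ψ.subtypeRestr hCne).symm w)) = mk (f w) := by
      filter_upwards [(ψ.subtypeRestr hCne).open_target.mem_nhds hz, hfu] with w hw1 hw2
      rw [hau]
      change (f w : (ℂ × ℂ) ⧸ lat) = _ at hw2
      change _ = (f w : (ℂ × ℂ) ⧸ lat)
      rw [hw2]
      congr 1
      exact (ψ.subtypeRestr_symm_eqOn hCne hw1).symm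
    have hcz : ContinuousAt (fun w => a ((ψ.subtypeRestr hCne).symm w)) z :=
      hac.continuousAt.comp ((ψ.subtypeRestr hCne).symm.continuousAt (x := z) hz)
    have hd : ∀ᶠ w in 𝓝 z, a ((ψ.subtypeRestr hCne).symm w) - f w =
        a ((ψ.subtypeRestr hCne).symm z) - f z := by
      have hc2 : ContinuousAt (fun w => ‖(a ((ψ.subtypeRestr hCne).symm w) - f w) -
          (a ((ψ.subtypeRestr hCne).symm z) - f z)‖) z :=
        ((hcz.sub hf.continuousAt).sub continuousAt_const).norm
      have h6 : ∀ᶠ w in 𝓝 z, ‖(a ((ψ.subtypeRestr hCne).symm w) - f w) -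
          (a ((ψ.subtypeRestr hCne).symm z) - f z)‖ < 1 :=
        hc2.eventually (gt_mem_nhds (by simp))
      have hmz := hmap.self_of_nhds
      filter_upwards [hmap, h6] with w hw1 hw2
      rw [mk_eq_iff] at hw1 hmz
      apply sub_eq_zero.1
      apply lat_small _ hw2
      have e : (a ((ψ.subtypeRestr hCne).symm w) - f w) -
          (a ((ψ.subtypeRestr hCne).symm z) - f z) =
          (f z - a ((ψ.subtypeRestr hCne).symm z)) - (f w - a ((ψ.subtypeRestr hCne).symm w)) := by
        abel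
      rw [e]
      exact lat.sub_mem hmz hw1
    have hev : (a ∘ (ψ.subtypeRestr hCne).symm) =ᶠ[𝓝 z]
        fun w => f w + (a ((ψ.subtypeRestr hCne).symm z) - f z) := by
      filter_upwards [hd] with w hw
      rw [← hw]
      show a ((ψ.subtypeRestr hCne).symm w) = f w + (a ((ψ.subtypeRestr hCne).symm w) - f w)
      abel
    exact (hf.differentiableAt.add_const _).congr_of_eventuallyEq hev
  -- properness
  have hCcl : IsOpen (W \ C) := by
    have : W \ C = ⋃ y ∈ W \ C, connectedComponentIn W y := by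
      ext t
      simp only [mem_iUnion]
      constructor
      · intro ht
        exact ⟨t, ht, mem_connectedComponentIn ht.1⟩
      · rintro ⟨y, hy, ht⟩
        refine ⟨connectedComponentIn_subset _ _ ht, fun htC => ?_⟩
        apply hy.2
        have e1 := connectedComponentIn_eq ht
        have e2 := connectedComponentIn_eq (show t ∈ connectedComponentIn W s₀ from htC)
        show y ∈ connectedComponentIn W s₀
        rw [e2, ← e1]
        exact mem_connectedComponentIn hy.1
    rw [this]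
    exact isOpen_biUnion fun y _ => hWo.connectedComponentIn
  have hproper : ∀ K : Set (ℂ × ℂ), K ⊆ Metric.ball 0 R → IsCompact K →
      IsCompact (a ⁻¹' K) := by
    intro K hK hKc
    have h1 : IsCompact (u ⁻¹' (mk '' K)) := by
      apply hu.proper _ ((image_mono hK).trans hRU)
      exact hKc.image continuous_mk
    have h2 : IsCompact (u ⁻¹' (mk '' K) \ (W \ C)) := h1.diff hCcl
    rw [Subtype.isCompact_iff]
    convert h2 using 1
    ext t
    constructor
    · rintro ⟨t', ht', rfl⟩
      refine ⟨⟨a t', ht', hau t'⟩, fun h => h.2 t'.2⟩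
    · rintro ⟨⟨k, hk, hke⟩, ht2⟩
      have htW : t ∈ W := ⟨k, hK hk, hke⟩
      have htC : t ∈ C := by
        by_contra hcon
        exact ht2 ⟨htW, hcon⟩
      refine ⟨⟨t, htC⟩, ?_, rfl⟩
      have : a ⟨t, htC⟩ = k := huniq _ (haB _) _ (hK hk) (by rw [hau, hke])
      rw [mem_preimage, this]
      exact hk
  refine local_contra hR (a := a) hproper hah hac ?_ ?_ ⟨s₀, hs₀C⟩ ?_
  · intro s
    apply TR_of_mem
    · have := haB s
      rw [hB, mem_ball_zero_iff] at this
      linarith
    · rw [hau]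
      exact hin _
  · rintro ⟨c, hc⟩
    apply hs₀'
    show ∀ᶠ t in 𝓝 s₀, u t = u s₀
    filter_upwards [C.isOpen.mem_nhds hs₀C] with t ht
    rw [← hau ⟨t, ht⟩, ← hau ⟨s₀, hs₀C⟩, hc, hc]
  · obtain ⟨b, hb, hbe⟩ := hs₀
    have : a ⟨s₀, hs₀C⟩ = b := by
      apply huniq _ (haB _) _ (Metric.ball_subset_ball (by linarith) hb)
      rw [hau, hbe]
    rw [this]
    rwa [mem_ball_zero_iff] at hb

end Pool.Agent.H994R4.Torus
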