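import Mathlib
import Pool.Agent.H994R4.TorusComp

set_option autoImplicit false

open MeasureTheory TopologicalSpace Set Function
open scoped Manifold ContDiff Topology
open Pool.Agent.H994R3.Leafwise (Form dirR cplx cplx_apply)

namespace Pool.Agent.H994R4.Torus

/-! ### bump functions on the torus -/

/-- a periodic function vanishing exactly on the lattice -/
noncomputable def P0 (x : ℂ × ℂ) : ℝ :=
  Real.sin (Real.pi * ((x.1.re + x.2.re) / 3)) ^ 2 +
  Real.sin (Real.pi * ((2 * x.1.re - x.2.re) / 3)) ^ 2 +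
  Real.sin (Real.pi * x.1.im) ^ 2 + Real.sin (Real.pi * x.2.im) ^ 2

theorem contDiff_P0 : ContDiff ℝ ∞ P0 := by
  have h1 : ContDiff ℝ ∞ (fun x : ℂ × ℂ => x.1.re) := Complex.reCLM.contDiff.comp contDiff_fst
  have h2 : ContDiff ℝ ∞ (fun x : ℂ × ℂ => x.2.re) := Complex.reCLM.contDiff.comp contDiff_snd
  have h3 : ContDiff ℝ ∞ (fun x : ℂ × ℂ => x.1.im) := Complex.imCLM.contDiff.comp contDiff_fst
  have h4 : ContDiff ℝ ∞ (fun x : ℂ × ℂ => x.2.im) := Complex.imCLM.contDiff.comp contDiff_snd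
  unfold P0
  have hs : ∀ {g : ℂ × ℂ → ℝ}, ContDiff ℝ ∞ g →
      ContDiff ℝ ∞ (fun x => Real.sin (Real.pi * g x) ^ 2) := fun hg =>
    (Real.contDiff_sin.comp (contDiff_const.mul hg)).pow 2
  exact (((hs ((h1.add h2).div_const 3)).add
    (hs (((contDiff_const.mul h1).sub h2).div_const 3))).add (hs h3)).add (hs h4)

theorem sin_sq_add (t : ℝ) (n : ℤ) :
    Real.sin (Real.pi * (t + n)) ^ 2 = Real.sin (Real.pi * t) ^ 2 := by
  have : Real.pi * (t + n) = Real.pi * t + n * Real.pi := by ring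
  rw [this, Real.sin_add_int_mul_pi, mul_pow]
  have h : ((-1 : ℝ) ^ n) ^ 2 = 1 := by
    rw [← zpow_natCast, ← zpow_mul, mul_comm, zpow_mul]
    simp
  rw [h, one_mul]

theorem P0_add {γ : ℂ × ℂ} (hγ : γ ∈ lat) (x : ℂ × ℂ) : P0 (x + γ) = P0 x := by
  obtain ⟨a, b, p, q, ⟨m, hm⟩, rfl⟩ := hγ
  have hab : (a : ℝ) + b = 3 * m := by exact_mod_cast hm
  unfold P0
  simp only [Prod.fst_add, Prod.snd_add, Complex.add_re, Complex.add_im]
  simp only [Complex.intCast_re, Complex.intCast_im, Complex.mul_re, Complex.mul_im, Complex.I_re,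
    Complex.I_im, mul_zero, mul_one, zero_mul, sub_zero, add_zero, zero_add]
  have e1 : (x.1.re + a + (x.2.re + b)) / 3 = (x.1.re + x.2.re) / 3 + (m : ℤ) := by
    push_cast
    linarith
  have e2 : (2 * (x.1.re + a) - (x.2.re + b)) / 3 =
      (2 * x.1.re - x.2.re) / 3 + ((2 * m - b : ℤ) : ℝ) := by
    push_cast
    linarith
  rw [e1, e2, sin_sq_add, sin_sq_add, sin_sq_add, sin_sq_add]

theorem P0_nonneg (x : ℂ × ℂ) : 0 ≤ P0 x := by
  unfold P0
  positivity

theorem P0_eq_zero {x : ℂ × ℂ} (h : P0 x = 0) : x ∈ lat := by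
  unfold P0 at h
  have g1 := sq_nonneg (Real.sin (Real.pi * ((x.1.re + x.2.re) / 3)))
  have g2 := sq_nonneg (Real.sin (Real.pi * ((2 * x.1.re - x.2.re) / 3)))
  have g3 := sq_nonneg (Real.sin (Real.pi * x.1.im))
  have g4 := sq_nonneg (Real.sin (Real.pi * x.2.im))
  have key : ∀ t : ℝ, Real.sin (Real.pi * t) ^ 2 = 0 → ∃ n : ℤ, t = n := by
    intro t ht
    have h1 := pow_eq_zero_iff (two_ne_zero) |>.1 ht
    obtain ⟨n, hn⟩ := Real.sin_eq_zero_iff.1 h1
    refine ⟨n, ?_⟩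
    have h2 : Real.pi * (t - n) = 0 := by linarith
    have := (mul_eq_zero.1 h2).resolve_left Real.pi_ne_zero
    linarith
  obtain ⟨m1, h1⟩ := key ((x.1.re + x.2.re) / 3) (by linarith)
  obtain ⟨m2, h2⟩ := key ((2 * x.1.re - x.2.re) / 3) (by linarith)
  obtain ⟨p, h3⟩ := key x.1.im (by linarith)
  obtain ⟨q, h4⟩ := key x.2.im (by linarith)
  have hx : x.1.re = ((m1 + m2 : ℤ) : ℝ) := by push_cast; linarith
  have hy : x.2.re = ((2 * m1 - m2 : ℤ) : ℝ) := by push_cast; linarith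
  refine ⟨m1 + m2, 2 * m1 - m2, p, q, ⟨m1, by ring⟩, ?_⟩
  apply Prod.ext
  · apply Complex.ext
    · simpa using hx
    · simpa using h3
  · apply Complex.ext
    · simpa using hy
    · simpa using h4

theorem out_sub (x : ℂ × ℂ) : ∃ γ ∈ lat, (mk x).out = x + γ := by
  have h : mk ((mk x).out) = mk x := QuotientAddGroup.out_eq' _
  rw [eq_comm, mk_eq_iff] at h
  exact ⟨_, h, by abel⟩

/-- the function on the torus vanishing only at `y` -/
noncomputable def PM (y : ℂ × ℂ) (m : M) : ℝ := P0 (m.out - y)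

theorem PM_mk (y x : ℂ × ℂ) : PM y (mk x) = P0 (x - y) := by
  obtain ⟨γ, hγ, h⟩ := out_sub x
  rw [PM, h]
  have : x + γ - y = (x - y) + γ := by abel
  rw [this, P0_add hγ]

theorem contDiff_PM (y : ℂ × ℂ) : ContDiff ℝ ∞ (fun x => PM y (mk x)) := by
  simp_rw [PM_mk]
  exact contDiff_P0.comp (contDiff_id.sub contDiff_const)

theorem exists_bump {W : Set M} (hW : IsOpen W) {m : M} (hm : m ∈ W) :
    ∃ χ : M → ℝ, ContDiff ℝ ∞ (fun x => χ (mk x)) ∧ (∀ y, 0 ≤ χ y) ∧ χ m = 1 ∧ tsupport χ ⊆ W := by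
  obtain ⟨y, rfl⟩ := surjective_mk m
  have hc : Continuous (PM y) := continuous_of_comp (contDiff_PM y)
  have hpos : ∀ m ∈ Wᶜ, 0 < PM y m := by
    intro m hm'
    obtain ⟨x, rfl⟩ := surjective_mk m
    refine lt_of_le_of_ne (P0_nonneg _) (fun h => hm' ?_)
    rw [PM_mk] at h
    have h2 := P0_eq_zero h.symm
    have : mk x = mk y := by
      rw [eq_comm, mk_eq_iff]
      exact h2
    rw [this]
    exact hm
  obtain ⟨η, hη, hle⟩ := hW.isClosed_compl.isCompact.exists_forall_le' hc.continuousOn hpos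
  refine ⟨fun m => Real.smoothTransition (1 - PM y m / (η / 2)), ?_, ?_, ?_, ?_⟩
  · exact Real.smoothTransition.contDiff.comp (contDiff_const.sub ((contDiff_PM y).div_const _))
  · intro m
    exact Real.smoothTransition.nonneg _
  · simp only
    rw [PM_mk]
    simp [P0]
  · have hsub : tsupport (fun m => Real.smoothTransition (1 - PM y m / (η / 2))) ⊆
        {m | PM y m ≤ η / 2} := by
      apply closure_minimal
      · intro m hm'
        by_contra hcon
        apply hm'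
        apply Real.smoothTransition.zero_of_nonpos
        simp only [mem_ofPred_eq, not_le] at hcon
        have : 1 < PM y m / (η / 2) := by
          rw [lt_div_iff₀ (by linarith)]
          linarith
        linarith
      · exact isClosed_le hc continuous_const
    intro m hm'
    by_contra hcon
    have h1 := hsub hm'
    have h2 := hle m hcon
    simp only [mem_ofPred_eq] at h1
    linarith

/-! ### masses of the current -/

theorem honey_scal {U : Opens M} (χ : M → ℝ) (h1 : ContDiff ℝ ∞ (fun x => χ (mk x)))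
    (h3 : tsupport χ ⊆ U) : honey (scal χ h1 h3 : PFormOn lat 2 U).1 =
      ∑ k, ∫ x in Q3, χ (mk (ps k x)) * K0 ![V k, Complex.I • V k] := rfl

theorem honey_scal_zero {U : Opens M} (χ : M → ℝ) (h1 : ContDiff ℝ ∞ (fun x => χ (mk x)))
    (h3 : tsupport χ ⊆ U) (h0 : ∀ m ∈ supp, χ m = 0) :
    honey (scal χ h1 h3 : PFormOn lat 2 U).1 = 0 := by
  rw [honey_scal]
  apply Finset.sum_eq_zero
  intro k _
  apply setIntegral_eq_zero_of_forall_eq_zero
  intro x hx
  rw [h0 _ (mem_supp k hx), zero_mul]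

theorem honey_scal_pos {U : Opens M} (χ : M → ℝ) (h1 : ContDiff ℝ ∞ (fun x => χ (mk x)))
    (h3 : tsupport χ ⊆ U) (hnn : ∀ y, 0 ≤ χ y) (h0 : χ (mk 0) ≠ 0) :
    0 < honey (scal χ h1 h3 : PFormOn lat 2 U).1 := by
  rw [honey_scal]
  have hom : ∀ k : Fin 3, 0 < K0 ![V k, Complex.I • V k] := by
    intro k
    refine lt_of_le_of_ne (K0_nonneg _) (fun hz => ?_)
    have h5 := K0_eq_zero _ hz.symm
    fin_cases k <;> simp [V, cplx_apply, dirR] at h5
  have hterm : ∀ k : Fin 3, 0 < ∫ x in Q3, χ (mk (ps k x)) * K0 ![V k, Complex.I • V k] := by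
    intro k
    rw [integral_mul_const]
    apply mul_pos _ (hom k)
    have hcont : Continuous (fun x => χ (mk (ps k x))) :=
      (continuous_of_comp h1).comp (continuous_mk.comp (ps k).continuous)
    rw [setIntegral_pos_iff_support_of_nonneg_ae
      (Filter.Eventually.of_forall (fun x => hnn _))
      (hcont.continuousOn.integrableOn_compact isCompact_Q3)]
    have hsub : support (fun x => χ (mk (ps k x))) ∩ (Ioo (0 : ℝ) 1 ×ˢ (Ioo (0 : ℝ) 1 ×ˢ
        Ioo (0 : ℝ) 1)) ⊆ support (fun x => χ (mk (ps k x))) ∩ Q3 := by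
      rintro x ⟨hx1, hx2, hx3, hx4⟩
      exact ⟨hx1, Ioo_subset_Icc_self hx2, Ioo_subset_Icc_self hx3, Ioo_subset_Icc_self hx4⟩
    refine lt_of_lt_of_le ?_ (measure_mono hsub)
    apply IsOpen.measure_pos
    · exact (hcont.isOpen_support).inter (isOpen_Ioo.prod (isOpen_Ioo.prod isOpen_Ioo))
    · have hN : ∀ᶠ x in 𝓝 (0 : ℝ × (ℝ × ℝ)), χ (mk (ps k x)) ≠ 0 := by
        apply hcont.continuousAt.eventually_ne
        rw [map_zero]
        exact h0
      have hN2 : Filter.Tendsto (fun t : ℝ => ((t, (t, t)) : ℝ × (ℝ × ℝ))) (𝓝[>] 0) (𝓝 0) := by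
        have : Filter.Tendsto (fun t : ℝ => ((t, (t, t)) : ℝ × (ℝ × ℝ))) (𝓝 0)
            (𝓝 (0, (0, 0))) := by
          apply Continuous.tendsto; fun_prop
        exact this.mono_left nhdsWithin_le_nhds
      have h5 : ∀ᶠ x : ℝ in 𝓝[>] 0, x ∈ Ioo (0 : ℝ) 1 :=
        Ioo_mem_nhdsGT one_pos
      obtain ⟨t, ht1, ht2⟩ := ((hN2.eventually hN).and h5).exists
      exact ⟨(t, (t, t)), ht1, ht2, ht2, ht2⟩
  exact Finset.sum_pos (fun k _ => hterm k) Finset.univ_nonempty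

/-! ### the conclusion -/

theorem not_average (U : Opens M) (hU : (mk 0) ∈ U) : ¬ IsAverage U honey := by
  rintro ⟨m, ν, hν⟩
  -- a small ball
  have hN : mk ⁻¹' (U : Set M) ∈ 𝓝 (0 : ℂ × ℂ) := continuous_mk.continuousAt (U.isOpen.mem_nhds hU)
  obtain ⟨r, hr, hball⟩ := Metric.mem_nhds_iff.1 hN
  set R : ℝ := min r (1 / 4) with hR
  have hR0 : 0 < R := lt_min hr (by norm_num)
  have hR4 : R ≤ 1 / 4 := min_le_right _ _
  have hRU : mk '' Metric.ball 0 R ⊆ U := by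
    rintro _ ⟨x, hx, rfl⟩
    exact hball (Metric.ball_subset_ball (min_le_left _ _) hx)
  -- bump functions off the support
  set W : Set M := (U : Set M) ∩ suppᶜ with hW
  have hWo : IsOpen W := U.isOpen.inter isClosed_supp.isOpen_compl
  have hbump : ∀ y : W, ∃ χ : M → ℝ, ContDiff ℝ ∞ (fun x => χ (mk x)) ∧ (∀ y, 0 ≤ χ y) ∧
      χ y = 1 ∧ tsupport χ ⊆ W := fun y => exists_bump hWo y.2
  choose f hf1 hf2 hf3 hf4 using hbump
  have hfU : ∀ y, tsupport (f y) ⊆ U := fun y => (hf4 y).trans inter_subset_left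
  have hfD : ∀ y, ∀ x ∈ supp, f y x = 0 := by
    intro y x hx
    by_contra hne
    exact (hf4 y (subset_tsupport _ hne)).2 hx
  obtain ⟨C, hCc, hCU⟩ := TopologicalSpace.isOpen_iUnion_countable
    (fun y : W => {x | 0 < f y x}) (fun y => isOpen_lt continuous_const (continuous_of_comp (hf1 y)))
  -- nonnegativity of masses
  have hmass : ∀ (χ : M → ℝ) (h1 : ContDiff ℝ ∞ (fun x => χ (mk x)))
      (h3 : tsupport χ ⊆ U) (_ : ∀ y, 0 ≤ χ y) (c' : curves lat U),
      0 ≤ c'.1 (scal χ h1 h3) := by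
    intro χ h1 h3 hnn c'
    obtain ⟨c', S, _, _, _, _, _, u, hu, ι, ρ, φ, O, g, hρ, hint⟩ := c'
    simp only
    rw [hint]
    exact (mass hu ρ φ O g (fun i => ⟨(hρ i).2.1, (hρ i).2.2.1, (hρ i).2.2.2.1, (hρ i).2.2.2.2.1,
      (hρ i).2.2.2.2.2⟩) hnn (continuous_of_comp h1) h3).1
  have hzero : ∀ y : W, ∀ᵐ c' ∂ν, c'.1 (scal (f y) (hf1 y) (hfU y)) = 0 := by
    intro y
    have h1 := (hν (scal (f y) (hf1 y) (hfU y))).2
    rw [value, honey_scal_zero _ _ _ (hfD y)] at h1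
    exact (integral_eq_zero_iff_of_nonneg
      (fun c' => hmass _ (hf1 y) (hfU y) (hf2 y) c')
      (hν (scal (f y) (hf1 y) (hfU y))).1).1 h1.symm
  have hall : ∀ᵐ c' ∂ν, ∀ y ∈ C, c'.1 (scal (f y) (hf1 y) (hfU y)) = 0 := by
    rw [ae_ball_iff hCc]
    intro y _
    exact hzero y
  -- a bump function at the origin
  have hB0 : IsOpen (mk '' Metric.ball 0 (R / 4)) := isOpenMap_mk _ Metric.isOpen_ball
  obtain ⟨χ, g1, g2, g3, g4⟩ := exists_bump hB0 (m := mk 0)
    ⟨0, Metric.mem_ball_self (by positivity), rfl⟩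
  have g1U : tsupport χ ⊆ U := g4.trans ((image_mono
    (Metric.ball_subset_ball (by linarith))).trans hRU)
  have hpos := honey_scal_pos χ g1 g1U g2 (by rw [g3]; exact one_ne_zero)
  have hex : ∃ c' : curves lat U,
      (∀ y ∈ C, c'.1 (scal (f y) (hf1 y) (hfU y)) = 0) ∧ c'.1 (scal χ g1 g1U) ≠ 0 := by
    by_contra hcon
    push Not at hcon
    have h1 : ∀ᵐ c' ∂ν, c'.1 (scal χ g1 g1U) = 0 := by
      filter_upwards [hall] with c' hc'
      exact hcon c' hc'
    have h2 := (hν (scal χ g1 g1U)).2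
    rw [integral_eq_zero_of_ae h1] at h2
    exact hpos.ne' h2
  obtain ⟨⟨c', S, _, _, _, _, _, u, hu, ι, ρ, φ, O, g, hρ, hint⟩, hc1, hc2⟩ := hex
  simp only at hc1 hc2
  have hρ' : ∀ i, Data U u (ρ i) (φ i) (O i) (g i) := fun i =>
    ⟨(hρ i).2.1, (hρ i).2.2.1, (hρ i).2.2.2.1, (hρ i).2.2.2.2.1, (hρ i).2.2.2.2.2⟩
  rw [hint] at hc2
  obtain ⟨s₀, hs₀, hs₀'⟩ := (mass hu ρ φ O g hρ' g2 (continuous_of_comp g1) g1U).2.2 hc2
  refine curve_final hu hR0 hR4 hRU ?_ s₀ (g4 (subset_tsupport _ hs₀)) hs₀'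
  intro s hs
  have hsW : u s ∈ W := ⟨hu.mem s, hs⟩
  have h1 : u s ∈ ⋃ y ∈ C, {x | 0 < f y x} := by
    rw [hCU, mem_iUnion]
    refine ⟨⟨u s, hsW⟩, ?_⟩
    show 0 < f ⟨u s, hsW⟩ (u s)
    rw [hf3 ⟨u s, hsW⟩]
    exact one_pos
  rw [mem_iUnion₂] at h1
  obtain ⟨y, hyC, hy⟩ := h1
  have h2 := hc1 y hyC
  rw [hint] at h2
  exact (mass hu ρ φ O g hρ' (hf2 y) (continuous_of_comp (hf1 y)) (hfU y)).2.1 h2 s hy

end Pool.Agent.H994R4.Torus
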