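import Mathlib

set_option autoImplicit false

open MeasureTheory TopologicalSpace Set Function
open scoped Manifold ContDiff Topology

namespace Pool.Agent.H994R4.TorusStmt

/-! Differential forms, currents and complex curves on a complex torus `M = ℂ² ⧸ Γ`. The tangent
spaces of `M` are identified with `ℂ²`, and a differential form on `M` with its pull back to `ℂ²`,
a `Γ`-periodic form. -/

/-- alternating (real) `p`-covectors on `ℂ²` -/
abbrev Covector (p : ℕ) := (ℂ × ℂ) [⋀^Fin p]→L[ℝ] ℝ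

/-- `α` is a smooth `p`-form on the torus `ℂ² ⧸ Γ`: a smooth `Γ`-periodic map from `ℂ²` to the space
of `p`-covectors. -/
def TorusForm (Γ : AddSubgroup (ℂ × ℂ)) (p : ℕ) (α : ℂ × ℂ → Covector p) : Prop :=
  ContDiff ℝ ∞ α ∧ ∀ γ ∈ Γ, ∀ x, α (x + γ) = α x

/-- `c` is a `p`-current on the torus: a linear functional on the smooth `p`-forms, continuous for
the `C^∞` topology, that is, bounded by a constant times the supremum of the norms of finitely
many derivatives. (The values of `c` on maps which are not smooth forms on the torus play no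
role.) -/
structure TorusCurrent (Γ : AddSubgroup (ℂ × ℂ)) (p : ℕ) (c : (ℂ × ℂ → Covector p) → ℝ) :
    Prop where
  add : ∀ α β, TorusForm Γ p α → TorusForm Γ p β → c (α + β) = c α + c β
  smul : ∀ (r : ℝ) (α), TorusForm Γ p α → c (r • α) = r * c α
  bound : ∃ (k : ℕ) (C : ℝ), ∀ α, TorusForm Γ p α → ∀ B : ℝ,
    (∀ j ≤ k, ∀ x, ‖iteratedFDeriv ℝ j α x‖ ≤ B) → |c α| ≤ C * B

/-- A `(p+1)`-current `c` is closed (a cycle) if `c(dβ) = 0` for every smooth `p`-form `β`. -/
def TorusCycle (Γ : AddSubgroup (ℂ × ℂ)) (p : ℕ) (c : (ℂ × ℂ → Covector (p + 1)) → ℝ) : Prop :=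
  ∀ β, TorusForm Γ p β → c (extDeriv β) = 0

/-- The `2`-current `c` is in the closed convex cone (for the weak topology) generated by the Dirac
currents `α ↦ α_x(v ∧ i v)`, `x ∈ M`, `v ∈ T_x M`: for all finite families of forms `α₁, …, αₙ` and
all `ε > 0` there is a finite sum of such Dirac currents, given by a list of pairs `(x, v)`, whose
values at `α₁, …, αₙ` differ from those of `c` by less than `ε`. (The cone `C_x` generated by the
complex lines is the set of finite sums of bivectors `v ∧ i v`.) -/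
def TorusPositive (Γ : AddSubgroup (ℂ × ℂ)) (c : (ℂ × ℂ → Covector 2) → ℝ) : Prop :=
  ∀ (n : ℕ) (α : Fin n → ℂ × ℂ → Covector 2), (∀ i, TorusForm Γ 2 (α i)) → ∀ ε : ℝ, 0 < ε →
    ∃ l : List ((ℂ × ℂ) × (ℂ × ℂ)), ∀ i,
      |c (α i) - (l.map fun q => α i q.1 ![q.2, Complex.I • q.2]).sum| < ε

/-- `α` is a smooth `2`-form on `M` with compact support in the open set `U` (`M` is compact, so a
subset of `U` is compact if and only if it is closed in `M`). -/
def TestForm (Γ : AddSubgroup (ℂ × ℂ)) (U : Opens ((ℂ × ℂ) ⧸ Γ)) (α : ℂ × ℂ → Covector 2) :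
    Prop :=
  TorusForm Γ 2 α ∧ tsupport α ⊆ QuotientAddGroup.mk ⁻¹' (U : Set ((ℂ × ℂ) ⧸ Γ))

/-- `u : S → U` is a proper holomorphic map from the Riemann surface `S` to the open subset `U` of
`M = ℂ² ⧸ Γ`: in each chart of `S` it has, near each point, a holomorphic lift to `ℂ²`. -/
structure TorusCurve (Γ : AddSubgroup (ℂ × ℂ)) (U : Opens ((ℂ × ℂ) ⧸ Γ)) (S : Type)
    [TopologicalSpace S] [ChartedSpace ℂ S] (u : S → (ℂ × ℂ) ⧸ Γ) : Prop where
  mem : ∀ s, u s ∈ U
  continuous : Continuous u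
  proper : ∀ K : Set ((ℂ × ℂ) ⧸ Γ), K ⊆ U → IsCompact K → IsCompact (u ⁻¹' K)
  holo : ∀ φ ∈ atlas ℂ S, ∀ z ∈ φ.target, ∃ f : ℂ → ℂ × ℂ, AnalyticAt ℂ f z ∧
    ∀ᶠ w in 𝓝 z, (f w : (ℂ × ℂ) ⧸ Γ) = u (φ.symm w)

/-- The functional `c'` on the `2`-forms with compact support in `U` is `α ↦ ∫_S u^*α`, computed
with a partition of unity `(ρ i)` on `S`, the support of `ρ i` being contained in the domain of a
chart `φ i` and mapped by it into an open set `O i` of `ℂ` where `u` has a holomorphic lift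
`f i : O i → ℂ²`. -/
def TorusIntegral (Γ : AddSubgroup (ℂ × ℂ)) (U : Opens ((ℂ × ℂ) ⧸ Γ)) (S : Type)
    [TopologicalSpace S] [ChartedSpace ℂ S] (u : S → (ℂ × ℂ) ⧸ Γ)
    (c' : (ℂ × ℂ → Covector 2) → ℝ) : Prop :=
  ∃ (ι : Type) (ρ : PartitionOfUnity ι S univ) (φ : ι → OpenPartialHomeomorph S ℂ)
    (O : ι → Set ℂ) (f : ι → ℂ → ℂ × ℂ),
    (∀ i, φ i ∈ atlas ℂ S ∧ IsOpen (O i) ∧ O i ⊆ (φ i).target ∧
      tsupport (ρ i) ⊆ (φ i).source ∩ φ i ⁻¹' (O i) ∧ DifferentiableOn ℂ (f i) (O i) ∧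
      ∀ z ∈ O i, (f i z : (ℂ × ℂ) ⧸ Γ) = u ((φ i).symm z)) ∧
    ∀ α, TestForm Γ U α → c' α = ∑ᶠ i, ∫ z in O i, ρ i ((φ i).symm z) *
      α (f i z) ![fderiv ℝ (f i) z 1, fderiv ℝ (f i) z Complex.I]

/-- The set of all functionals `α ↦ ∫_S u^*α`, for `S` a connected Riemann surface and `u : S → U`
a proper holomorphic map. It contains the integration current `[V]` of every irreducible closed
analytic curve `V` of `U`: take for `u` the normalization of `V`. -/
def torusCurves (Γ : AddSubgroup (ℂ × ℂ)) (U : Opens ((ℂ × ℂ) ⧸ Γ)) :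
    Set ((ℂ × ℂ → Covector 2) → ℝ) :=
  {c' | ∃ (S : Type) (_ : TopologicalSpace S) (_ : T2Space S) (_ : ConnectedSpace S)
    (_ : ChartedSpace ℂ S) (_ : IsManifold 𝓘(ℂ) 1 S) (u : S → (ℂ × ℂ) ⧸ Γ),
    TorusCurve Γ U S u ∧ TorusIntegral Γ U S u c'}

/-- On `U`, the current `c` is an average of complex curves: there is a (non-negative) measure `ν`
on the set of curves of `U` (for some σ-algebra, for instance the Borel σ-algebra of any topology)
with `c(α) = ∫ c'(α) dν(c')` for all smooth `2`-forms `α` with compact support in `U`. -/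
def TorusAverage (Γ : AddSubgroup (ℂ × ℂ)) (U : Opens ((ℂ × ℂ) ⧸ Γ))
    (c : (ℂ × ℂ → Covector 2) → ℝ) : Prop :=
  ∃ (_ : MeasurableSpace (torusCurves Γ U)) (ν : Measure (torusCurves Γ U)),
    ∀ α, TestForm Γ U α → Integrable (fun c' : torusCurves Γ U => c'.1 α) ν ∧
      c α = ∫ c' : torusCurves Γ U, c'.1 α ∂ν

end Pool.Agent.H994R4.TorusStmt
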