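import Mathlib
import Pool.Agent.H994R4.TorusStmt
import Pool.Agent.H994R4.TorusFinal

set_option autoImplicit false

open MeasureTheory TopologicalSpace Set Function
open scoped Manifold ContDiff Topology
open Pool.Agent.H994R3.Leafwise (Form dirR cplx cplx_apply)
open Pool.Agent.H994R4.TorusStmt

namespace Pool.Agent.H994R4.Torus

/-- the honeycomb current as a functional on maps -/
noncomputable def honeyF (α : ℂ × ℂ → Covector 2) : ℝ := ∑ k, term k α

theorem honeyF_eq (α : PForm lat 2) : honeyF α = honey α := rfl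

theorem volume_Q3 : (volume : Measure (ℝ × (ℝ × ℝ))) Q3 = 1 := by
  simp only [Q3, Q2]
  rw [Measure.volume_eq_prod, Measure.prod_prod, Measure.volume_eq_prod, Measure.prod_prod]
  simp

theorem honeyF_current : TorusCurrent lat 2 honeyF where
  add α β hα hβ := map_add honey (⟨α, hα⟩ : PForm lat 2) (⟨β, hβ⟩ : PForm lat 2)
  smul r α hα := map_smul honey r (⟨α, hα⟩ : PForm lat 2)
  bound := by
    refine ⟨0, ∑ k : Fin 3, ∏ i, ‖(![V k, Complex.I • V k] : Fin 2 → ℂ × ℂ) i‖, ?_⟩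
    intro α hα B hB
    have hB' : ∀ x, ‖α x‖ ≤ B := by
      intro x
      have := hB 0 le_rfl x
      rwa [norm_iteratedFDeriv_zero] at this
    rw [honeyF, Finset.sum_mul]
    refine (Finset.abs_sum_le_sum_abs _ _).trans (Finset.sum_le_sum fun k _ => ?_)
    have h1 := norm_setIntegral_le_of_norm_le_const (μ := (volume : Measure (ℝ × (ℝ × ℝ))))
      (s := Q3) (f := fun x => α (ps k x) ![V k, Complex.I • V k])
      (C := (∏ i, ‖(![V k, Complex.I • V k] : Fin 2 → ℂ × ℂ) i‖) * B)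
      (by rw [volume_Q3]; exact ENNReal.one_lt_top) (fun x _ => by
        refine ((α (ps k x)).le_opNorm _).trans ?_
        rw [mul_comm]
        exact mul_le_mul_of_nonneg_left (hB' _) (Finset.prod_nonneg fun _ _ => norm_nonneg _))
    rw [Measure.real, volume_Q3, ENNReal.toReal_one, mul_one] at h1
    exact h1

theorem torusForm_extDeriv {Γ : AddSubgroup (ℂ × ℂ)} {p : ℕ} {β : ℂ × ℂ → Covector p}
    (h : TorusForm Γ p β) : TorusForm Γ (p + 1) (extDeriv β) := by
  refine ⟨?_, ?_⟩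
  · have h1 : ContDiff ℝ ∞ (fderiv ℝ β) := h.1.fderiv_right (m := ∞) (by simp)
    exact (ContinuousAlternatingMap.alternatizeUncurryFinCLM ℝ (ℂ × ℂ) ℝ).contDiff.comp h1
  · intro γ hγ x
    have h2 : (fun y => β (y + γ)) = β := funext fun y => h.2 γ hγ y
    have h3 : fderiv ℝ β (x + γ) = fderiv ℝ β x := by
      rw [← fderiv_comp_add_right, h2]
    simp only [extDeriv, h3]

theorem honeyF_cycle : TorusCycle lat 1 honeyF := by
  intro β hβ
  exact honey_isCycle (⟨β, hβ⟩ : PForm lat 1)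
    (⟨extDeriv β, torusForm_extDeriv hβ⟩ : PForm lat 2) (fun _ => rfl)

theorem honeyF_positive : TorusPositive lat honeyF := by
  intro n α hα ε hε
  set T : AddSubmonoid (Fin n → ℝ) :=
    { carrier := {y | ∃ l : List ((ℂ × ℂ) × (ℂ × ℂ)),
        ∀ i, y i = (l.map fun q => α i q.1 ![q.2, Complex.I • q.2]).sum}
      add_mem' := by
        rintro a b ⟨l, hl⟩ ⟨l', hl'⟩
        refine ⟨l ++ l', fun i => ?_⟩
        rw [Pi.add_apply, hl, hl', List.map_append, List.sum_append]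
      zero_mem' := ⟨[], fun i => by simp⟩ } with hT
  have hsmul : ∀ r : ℝ, 0 ≤ r → ∀ y ∈ T, r • y ∈ T := by
    rintro r hr y ⟨l, hl⟩
    refine ⟨l.map fun q => (q.1, (Real.sqrt r) • q.2), fun i => ?_⟩
    rw [Pi.smul_apply, hl, List.map_map, smul_eq_mul, ← List.sum_map_mul_left]
    congr 1
    apply List.map_congr_left
    intro q _
    simp only [comp_apply]
    have e : (![Real.sqrt r • q.2, Complex.I • Real.sqrt r • q.2] : Fin 2 → ℂ × ℂ) =
        fun j => Real.sqrt r • (![q.2, Complex.I • q.2] : Fin 2 → ℂ × ℂ) j := by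
      funext j
      fin_cases j
      · simp
      · simp only [Fin.mk_one, Matrix.cons_val_one, Matrix.cons_val_fin_one]
        rw [smul_comm]
    rw [e, ContinuousAlternatingMap.map_smul_univ]
    simp only [Finset.prod_const, Finset.card_univ, Fintype.card_fin, smul_eq_mul]
    rw [Real.sq_sqrt hr]
  have hconv : Convex ℝ (T : Set (Fin n → ℝ)) := by
    intro x hx y hy a b ha hb _
    exact T.add_mem (hsmul a ha x hx) (hsmul b hb y hy)
  set K := T.topologicalClosure with hK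
  have hKc : IsClosed (K : Set (Fin n → ℝ)) := T.isClosed_topologicalClosure
  have hKconv : Convex ℝ (K : Set (Fin n → ℝ)) := by
    have e : (K : Set (Fin n → ℝ)) = closure (T : Set (Fin n → ℝ)) := rfl
    rw [e]
    exact hconv.closure
  have hprob : IsProbabilityMeasure ((volume : Measure (ℝ × (ℝ × ℝ))).restrict Q3) :=
    ⟨by rw [Measure.restrict_apply_univ, volume_Q3]⟩
  have hmem : ∀ k : Fin 3, (fun i => term k (α i)) ∈ K := by
    intro k
    have hint : ∀ i, Integrable (fun x => α i (ps k x) ![V k, Complex.I • V k])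
        ((volume : Measure (ℝ × (ℝ × ℝ))).restrict Q3) :=
      fun i => term_integrable k (⟨α i, hα i⟩ : PForm lat 2)
    have hint2 : Integrable (fun x => fun i => α i (ps k x) ![V k, Complex.I • V k])
        ((volume : Measure (ℝ × (ℝ × ℝ))).restrict Q3) := Integrable.of_eval hint
    have h1 := hKconv.integral_mem hKc (Filter.Eventually.of_forall (fun x =>
      T.le_topologicalClosure ⟨[(ps k x, V k)], fun i => by simp⟩)) hint2
    have h2 : (fun i => term k (α i)) =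
        ∫ x in Q3, (fun i => α i (ps k x) ![V k, Complex.I • V k]) := by
      funext i
      rw [eval_integral hint]
      rfl
    rw [h2]
    exact h1
  have hsum : (fun i => honeyF (α i)) ∈ K := by
    have : (fun i => honeyF (α i)) = ∑ k : Fin 3, fun i => term k (α i) := by
      funext i
      simp [honeyF]
    rw [this]
    exact K.sum_mem fun k _ => hmem k
  have hcl : (fun i => honeyF (α i)) ∈ closure (T : Set (Fin n → ℝ)) := hsum
  obtain ⟨y, ⟨l, hl⟩, hy⟩ := Metric.mem_closure_iff.1 hcl ε hε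
  refine ⟨l, fun i => ?_⟩
  rw [← hl i, ← Real.dist_eq]
  exact (dist_le_pi_dist _ _ i).trans_lt hy

/-! ### averages -/

/-- the test form `χ K0` -/
noncomputable def scalF (χ : M → ℝ) (x : ℂ × ℂ) : Covector 2 := χ (mk x) • K0

theorem testForm_scalF {U : Opens M} {χ : M → ℝ} (h1 : ContDiff ℝ ∞ (fun x => χ (mk x)))
    (h3 : tsupport χ ⊆ U) : TestForm lat U (scalF χ) :=
  ⟨(scal χ h1 h3 : PFormOn lat 2 U).1.2, (scal χ h1 h3 : PFormOn lat 2 U).2⟩

theorem isCurve_of {U : Opens M} {S : Type} [TopologicalSpace S] [ChartedSpace ℂ S] {u : S → M}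
    (h : TorusCurve lat U S u) : IsCurve U S u := ⟨h.mem, h.continuous, h.proper, h.holo⟩

theorem not_torusAverage (U : Opens M) (hU : (mk 0) ∈ U) : ¬ TorusAverage lat U honeyF := by
  rintro ⟨m, ν, hν⟩
  -- a small ball
  have hN : mk ⁻¹' (U : Set M) ∈ 𝓝 (0 : ℂ × ℂ) := continuous_mk.continuousAt (U.isOpen.mem_nhds hU)
  obtain ⟨r, hr, hball⟩ := Metric.mem_nhds_iff.1 hN
  set R : ℝ := min r (1 / 4) with hR
  have hR0 : 0 < R := lt_min hr (by norm_num)
  have hR4 : R ≤ 1 / 4 := min_le_right _ _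
  have hRU : mk '' Metric.ball 0 R ⊆ U := by
    rintro _ ⟨x, hx, rfl⟩
    exact hball (Metric.ball_subset_ball (min_le_left _ _) hx)
  -- bump functions off the support
  set W : Set M := (U : Set M) ∩ suppᶜ with hW
  have hWo : IsOpen W := U.isOpen.inter isClosed_supp.isOpen_compl
  have hbump : ∀ y : W, ∃ χ : M → ℝ, ContDiff ℝ ∞ (fun x => χ (mk x)) ∧ (∀ y, 0 ≤ χ y) ∧
      χ y = 1 ∧ tsupport χ ⊆ W := fun y => exists_bump hWo y.2
  choose f hf1 hf2 hf3 hf4 using hbump
  have hfU : ∀ y, tsupport (f y) ⊆ U := fun y => (hf4 y).trans inter_subset_left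
  have hfD : ∀ y, ∀ x ∈ supp, f y x = 0 := by
    intro y x hx
    by_contra hne
    exact (hf4 y (subset_tsupport _ hne)).2 hx
  obtain ⟨C, hCc, hCU⟩ := TopologicalSpace.isOpen_iUnion_countable
    (fun y : W => {x | 0 < f y x}) (fun y => isOpen_lt continuous_const (continuous_of_comp (hf1 y)))
  -- nonnegativity of masses
  have hmass : ∀ (χ : M → ℝ) (_ : ContDiff ℝ ∞ (fun x => χ (mk x)))
      (_ : tsupport χ ⊆ U) (_ : ∀ y, 0 ≤ χ y) (c' : torusCurves lat U), 0 ≤ c'.1 (scalF χ) := by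
    intro χ h1 h3 hnn c'
    obtain ⟨c', S, _, _, _, _, _, u, hu, ι, ρ, φ, O, g, hρ, hint⟩ := c'
    simp only
    rw [hint _ (testForm_scalF h1 h3)]
    exact (mass (isCurve_of hu) ρ φ O g (fun i => ⟨(hρ i).2.1, (hρ i).2.2.1, (hρ i).2.2.2.1,
      (hρ i).2.2.2.2.1, (hρ i).2.2.2.2.2⟩) hnn (continuous_of_comp h1) h3).1
  have hzero : ∀ y : W, ∀ᵐ c' ∂ν, c'.1 (scalF (f y)) = 0 := by
    intro y
    have hh := hν (scalF (f y)) (testForm_scalF (hf1 y) (hfU y))
    have h1 := hh.2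
    have h2 : honeyF (scalF (f y)) = 0 := honey_scal_zero (f y) (hf1 y) (hfU y) (hfD y)
    rw [h2] at h1
    exact (integral_eq_zero_iff_of_nonneg
      (fun c' => hmass _ (hf1 y) (hfU y) (hf2 y) c') hh.1).1 h1.symm
  have hall : ∀ᵐ c' ∂ν, ∀ y ∈ C, c'.1 (scalF (f y)) = 0 := by
    rw [ae_ball_iff hCc]
    intro y _
    exact hzero y
  -- a bump function at the origin
  have hB0 : IsOpen (mk '' Metric.ball 0 (R / 4)) := isOpenMap_mk _ Metric.isOpen_ball
  obtain ⟨χ, g1, g2, g3, g4⟩ := exists_bump hB0 (m := mk 0)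
    ⟨0, Metric.mem_ball_self (by positivity), rfl⟩
  have g1U : tsupport χ ⊆ U := g4.trans ((image_mono
    (Metric.ball_subset_ball (by linarith))).trans hRU)
  have hpos : 0 < honeyF (scalF χ) :=
    honey_scal_pos χ g1 g1U g2 (by rw [g3]; exact one_ne_zero)
  have hex : ∃ c' : torusCurves lat U,
      (∀ y ∈ C, c'.1 (scalF (f y)) = 0) ∧ c'.1 (scalF χ) ≠ 0 := by
    by_contra hcon
    push Not at hcon
    have h1 : ∀ᵐ c' ∂ν, c'.1 (scalF χ) = 0 := by
      filter_upwards [hall] with c' hc'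
      exact hcon c' hc'
    have h2 := (hν (scalF χ) (testForm_scalF g1 g1U)).2
    rw [integral_eq_zero_of_ae h1] at h2
    exact hpos.ne' h2
  obtain ⟨⟨c', S, _, _, _, _, _, u, hu', ι, ρ, φ, O, g, hρ, hint⟩, hc1, hc2⟩ := hex
  simp only at hc1 hc2
  have hu := isCurve_of hu'
  have hρ' : ∀ i, Data U u (ρ i) (φ i) (O i) (g i) := fun i =>
    ⟨(hρ i).2.1, (hρ i).2.2.1, (hρ i).2.2.2.1, (hρ i).2.2.2.2.1, (hρ i).2.2.2.2.2⟩
  rw [hint _ (testForm_scalF g1 g1U)] at hc2
  obtain ⟨s₀, hs₀, hs₀'⟩ := (mass hu ρ φ O g hρ' g2 (continuous_of_comp g1) g1U).2.2 hc2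
  refine curve_final hu hR0 hR4 hRU ?_ s₀ (g4 (subset_tsupport _ hs₀)) hs₀'
  intro s hs
  have hsW : u s ∈ W := ⟨hu.mem s, hs⟩
  have h1 : u s ∈ ⋃ y ∈ C, {x | 0 < f y x} := by
    rw [hCU, mem_iUnion]
    refine ⟨⟨u s, hsW⟩, ?_⟩
    show 0 < f ⟨u s, hsW⟩ (u s)
    rw [hf3 ⟨u s, hsW⟩]
    exact one_pos
  rw [mem_iUnion₂] at h1
  obtain ⟨y, hyC, hy⟩ := h1
  have h2 := hc1 y hyC
  rw [hint _ (testForm_scalF (hf1 y) (hfU y))] at h2
  exact (mass hu ρ φ O g hρ' (hf2 y) (continuous_of_comp (hf1 y)) (hfU y)).2.1 h2 s hy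

end Pool.Agent.H994R4.Torus
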